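import Mathlib
import Pool.Agent.W953.SP.Gen

/-!
# The lower bound for computations in rounds of tests that obey the rank bound
-/

set_option autoImplicit false

namespace Pool.Agent.W953.SR

open Finset Pool.Agent.H560R2 Pool.Agent.W953.PT Pool.Agent.W953.SP Pool.Agent.H540R2
  Pool.Agent.H540R2.Circuit Pool.Agent.W953.NW

universe u

/-- tests that obey the rank bound over some field -/
def RankTests {T : Type u} {I : Type} (𝒯 : Tests T I) : Prop :=
  ∀ P : T, ∃ (F : Type) (_ : Field F), ∀ (X Y : Type) [Fintype X] [Fintype Y] [DecidableEq X]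
    [DecidableEq Y] (A : Matrix X Y F) (α : X → I → Bool) (β : Y → I → Bool) (U : X → Prop)
    [DecidablePred U], (∀ x, U x → 𝒯.acc P (α x)) → (∀ y, ¬ 𝒯.acc P (β y)) → ∀ m : ℕ,
    (∀ i, (mask A (fun x => α x i = true) (fun y => β y i = false)).rank ≤ m) →
    (mask A U (fun _ => True)).rank ≤ 𝒯.size P * m

section

variable {V : Type} [DecidableEq V] [Fintype V] {P : V → Finset V} {t : V} {d q : ℕ} {I : Type}
  {T : Type u}

/-- A family of tests that separates the positive inputs from the negative inputs is large. -/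
theorem family_bound {𝒯 : Tests T I} (h𝒯 : RankTests 𝒯) (hq : 1 ≤ q) (hP : ∀ v, v ∉ P v)
    (ht : ∀ S, Reach P d S → t ∉ S)
    (hn : d + 1 ≤ Fintype.card V) (α : (V → Fin q) → I → Bool)
    (β : (V → Fin q → Bool) → I → Bool)
    (hbase : ∀ i, (∃ r, (∀ x, α x i = pα P t q x r) ∧ ∀ y, β y i = pβ P t q y r) ∨
      ∃ c, (∀ x, α x i = c) ∧ ∀ y, β y i = c)
    (L : List T) (hα : ∀ x, ∃ S ∈ L, 𝒯.acc S (α x)) (hβ : ∀ y, ∀ S ∈ L, ¬ 𝒯.acc S (β y)) :
    q ^ (d + 1) ≤ (L.map 𝒯.size).sum * (Fintype.card V).choose d := by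
  classical
  obtain ⟨n, hnn⟩ : ∃ n, Fintype.card V = n := ⟨_, rfl⟩
  set R : Finset (Finset V) := Finset.univ.filter (fun S => Reach P d S) with hR
  have hR0 : ∅ ∈ R := Finset.mem_filter.mpr ⟨Finset.mem_univ _, Reach.nil⟩
  have hRc : ∀ S ∈ R, S.card ≤ d := fun S hS => (Finset.mem_filter.mp hS).2.card
  have hRi : ∀ v, ∀ S ∈ R, P v ⊆ S → v ∉ S → S.card < d → insert v S ∈ R := by
    intro v S hS hPS hv hlt
    refine Finset.mem_filter.mpr ⟨Finset.mem_univ _, Reach.ins S v (Finset.mem_filter.mp hS).2 hPS ?_⟩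
    rw [Finset.card_insert_of_notMem hv]
    exact hlt
  have hRe : ∀ v, ∀ S ∈ R, P v ⊆ S → v ∈ S → S.erase v ∈ R := fun v S hS _ _ =>
    Finset.mem_filter.mpr ⟨Finset.mem_univ _, Reach.ers S v (Finset.mem_filter.mp hS).2⟩
  have hRt : ∀ S ∈ R, t ∉ S := fun S hS => ht S (Finset.mem_filter.mp hS).2
  obtain ⟨r, hr⟩ : ∃ r, r = n.choose d * q ^ (n - (d + 1)) := ⟨_, rfl⟩
  have hone : ∀ S ∈ L, (univ.filter (fun x => 𝒯.acc S (α x))).card ≤ 𝒯.size S * r := by
    intro S hS
    obtain ⟨F, fF, hF⟩ := h𝒯 S
    refine (card_le_rank (amat F q R) (phi F q V) (amat_phi R hR0) _).trans ?_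
    refine hF _ _ (amat F q R) α β _ (fun x hx => hx) (fun y => hβ y S hS) r ?_
    intro i
    rcases hbase i with ⟨⟨v, ρ⟩ | c, h1, h2⟩ | ⟨c, h1, h2⟩
    · have := mask_rank (F := F) (q := q) R d (P v) v (hP v) hRc (hRi v) (hRe v)
          (fun x => α x i = true)
          (fun y => β y i = false) (by
            intro x y hx hy
            rw [h1] at hx
            rw [h2] at hy
            simp only [pα, decide_eq_true_eq] at hx
            simp only [pβ, decide_eq_false_iff_not, not_not] at hy
            refine ⟨fun i hi => ?_, ?_⟩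
            · have := hx ⟨i, Finset.mem_insert_of_mem hi⟩
              simp only at this
              rw [this]
              exact hy.1 i hi
            · have := hx ⟨v, Finset.mem_insert_self _ _⟩
              simp only at this
              rw [this]
              exact hy.2)
      rw [hnn, ← hr] at this
      exact this
    · have := mask_sink (F := F) (q := q) R t hRt (fun x => α x i = true)
          (fun y => β y i = false) (by
            intro x y hx hy
            rw [h1] at hx
            rw [h2] at hy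
            simp only [pα, decide_eq_true_eq] at hx
            simp only [pβ, Bool.not_eq_false'] at hy
            rw [hx]
            exact hy)
      rw [this]
      exact Nat.zero_le _
    · have : SP.mask (amat F q R) (fun x => α x i = true) (fun y => β y i = false) = 0 := by
        ext x y
        simp only [SP.mask, Matrix.of_apply, Matrix.zero_apply]
        rw [if_neg]
        rintro ⟨h3, h4⟩
        rw [h1] at h3
        rw [h2, h3] at h4
        exact absurd h4 (by simp)
      rw [this, Matrix.rank_zero]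
      exact Nat.zero_le _
  have h1 := card_le_sum_list (fun (S : T) x => 𝒯.acc S (α x)) L univ (fun x _ => hα x)
  have h2 : (L.map (fun S => (univ.filter (fun x => 𝒯.acc S (α x))).card)).sum ≤
      (L.map 𝒯.size).sum * r := by
    rw [← List.sum_map_mul_right]
    exact List.sum_le_sum (fun S hS => hone S hS)
  have h3 : q ^ n ≤ (L.map 𝒯.size).sum * r := by
    have h4 := h1.trans h2
    rw [Finset.card_univ, Fintype.card_fun, Fintype.card_fin, hnn] at h4
    exact h4
  rw [hnn] at hn ⊢
  rw [hr] at h3
  have hsplit : q ^ n = q ^ (n - (d + 1)) * q ^ (d + 1) := by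
    rw [← pow_add]; congr 1; omega
  rw [hsplit] at h3
  have e : (L.map 𝒯.size).sum * (n.choose d * q ^ (n - (d + 1))) =
      q ^ (n - (d + 1)) * ((L.map 𝒯.size).sum * n.choose d) := by ring
  rw [e] at h3
  exact Nat.le_of_mul_le_mul_left h3 (by positivity)

/-- Many copies need many rounds. -/
theorem copies_lt {𝒯 : Tests T I} (h𝒯 : RankTests 𝒯) (hm : Prog.Mono 𝒯) (lvl : V → ℕ)
    (hlvl : ∀ v, ∀ u ∈ P v, lvl u < lvl v) (hq : 1 ≤ q)
    (ht : ∀ S, Reach P d S → t ∉ S) (hn : d + 1 ≤ Fintype.card V) {M : ℕ}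
    (emb : (Fin M → PVar P q → Bool) → I → Bool)
    (hemb : ∀ i, (∃ J r, ∀ Y, emb Y i = Y J r) ∨ ∃ c, ∀ Y, emb Y i = c)
    (p : Prog T)
    (hp : ∀ Y, p.Acc 𝒯 (emb Y) ↔ ∃ J, pebF P t q (Y J))
    (hload : p.load 𝒯 * (Fintype.card V).choose d < q ^ (d + 1)) : M < p.cost := by
  classical
  have hPv : ∀ v, v ∉ P v := fun v hv => lt_irrefl _ (hlvl v v hv)
  have hz0 : ¬ pebF P t q (fun _ => false) := by
    rintro ⟨c, h, -⟩
    exact absurd h (by simp)
  -- monotonicity of the embedding
  have hmono : ∀ (y : Fin M → PVar P q → Bool) (J : Fin M) (X : PVar P q → Bool),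
      y J = (fun _ => false) → ∀ i, emb y i = true → emb (Function.update y J X) i = true := by
    intro y J X hyJ i hi
    rcases hemb i with ⟨J', r, h⟩ | ⟨c, h⟩
    · rw [h] at hi ⊢
      by_cases hJ : J' = J
      · subst hJ
        rw [hyJ] at hi
        exact absurd hi (by simp)
      · rw [Function.update_of_ne hJ]
        exact hi
    · rw [h] at hi ⊢
      exact hi
  obtain ⟨Y, h1, h2, h3⟩ := chain_core (κ := Fin M) (m := M)
    (fun X => ¬ pebF P t q X) (fun _ => false) hz0 id (fun _ _ h => h)
    (fun Y => p.tr 𝒯 (emb Y)) (by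
      intro y J hy hyJ
      by_contra hcon
      push Not at hcon
      obtain ⟨L, hL1, hL2⟩ := Prog.flip hm p (emb y)
        {x | ∃ X, x = emb (Function.update y J X)} (by
          rintro _ ⟨X, rfl⟩
          exact hmono y J X hyJ) (by
          rintro _ ⟨X, rfl⟩ hrej
          have hX : ¬ pebF P t q X := by
            intro hX
            exact hrej ((hp _).mpr ⟨J, by rwa [Function.update_self]⟩)
          exact hcon X hX)
      have hiff : ∀ X, (∃ S ∈ L, 𝒯.acc S (emb (Function.update y J X))) ↔ pebF P t q X := by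
        intro X
        rw [← hL2 _ ⟨X, rfl⟩, hp]
        constructor
        · rintro ⟨J', hJ'⟩
          by_cases hJ : J' = J
          · subst hJ
            rwa [Function.update_self] at hJ'
          · rw [Function.update_of_ne hJ] at hJ'
            exact absurd hJ' (hy J')
        · intro hX
          exact ⟨J, by rwa [Function.update_self]⟩
      have h5 := family_bound h𝒯 hq hPv ht hn (fun x => emb (Function.update y J (pα P t q x)))
        (fun y' => emb (Function.update y J (pβ P t q y'))) (by
          intro i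
          rcases hemb i with ⟨J', r, h⟩ | ⟨c, h⟩
          · by_cases hJ : J' = J
            · subst hJ
              left
              refine ⟨r, fun x => ?_, fun x => ?_⟩
              · rw [h, Function.update_self]
              · rw [h, Function.update_self]
            · right
              refine ⟨y J' r, fun x => ?_, fun x => ?_⟩
              · rw [h, Function.update_of_ne hJ]
              · rw [h, Function.update_of_ne hJ]
          · exact Or.inr ⟨c, fun x => h _, fun x => h _⟩) L
        (fun x => (hiff _).mpr (peb_pos lvl hlvl x))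
        (fun y' S hS hacc => peb_neg y' ((hiff _).mp ⟨S, hS, hacc⟩))
      have h6 : (L.map 𝒯.size).sum * (Fintype.card V).choose d ≤
          p.load 𝒯 * (Fintype.card V).choose d := Nat.mul_le_mul_right _ hL1
      omega)
  refine Prog.chain_lt hm p (fun i => emb (Y i)) M (fun i hi => ⟨?_, h2 i hi⟩)
  obtain ⟨J, X, hJ, hX⟩ := h1 i hi
  show ∀ j, emb (Y i) j = true → emb (Y (i + 1)) j = true
  rw [hX]
  exact hmono (Y i) J X hJ

end

/-- The lower bound for functions with small circuits, on slices. -/
theorem hard_circ (D M r U : ℕ) (hM : 1 ≤ M) (hU : U = M * vno D) :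
    ∃ C : Circuit (U + r), C.Monotone ∧ C.size ≤ 3 * U ∧
      ∀ (T : Type u) (𝒯 : Tests T (Fin (U + r))), RankTests 𝒯 → Prog.Mono 𝒯 →
      ∀ k ≤ r, ∀ p : Prog T, p.cost ≤ M → p.load 𝒯 < 4 ^ (D + 1) →
        ∃ x, k ≤ wt x ∧ wt x ≤ k + U ∧ ¬ (p.Acc 𝒯 x ↔ C.eval x = true) := by
  classical
  obtain ⟨V, dV, fV, P, t, lvl, d, q, hq, h1, h2, h3, h4, h5, -, h6⟩ := exists_gadget D
  have hcard : Fintype.card (Fin M × PVar P q) ≤ Fintype.card (Fin U) := by
    rw [Fintype.card_prod, Fintype.card_fin, Fintype.card_fin, hU]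
    exact Nat.mul_le_mul_left M ((card_pvar' h1 hq).trans h5)
  obtain ⟨e⟩ := Function.Embedding.nonempty_of_card_le hcard
  have hC0 : ∃ C0 : Circuit U, C0.Monotone ∧ C0.size ≤ 3 * U ∧
      ∀ x, C0.eval x = orPeb P t q M e x := by
    obtain ⟨L, hL, hlen, hav⟩ := orPeb_prog (t := t) hq h1 lvl h2 M hM e
    have hlen2 : L.length + 1 ≤ 3 * U := by
      have e1 : 3 * Fintype.card V * q ^ 3 + 2 * q + 1 ≤ 3 * vno D := by
        have : 3 * Fintype.card V * q ^ 3 = 3 * (Fintype.card V * q ^ 3) := by ring
        omega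
      have e2 : M * (3 * Fintype.card V * q ^ 3 + 2 * q) + M ≤ 3 * (M * vno D) := by
        calc M * (3 * Fintype.card V * q ^ 3 + 2 * q) + M =
            M * (3 * Fintype.card V * q ^ 3 + 2 * q + 1) := by ring
          _ ≤ M * (3 * vno D) := Nat.mul_le_mul_left _ e1
          _ = 3 * (M * vno D) := by ring
      rw [← hU] at e2
      omega
    rcases hav with ⟨p, hp⟩ | hmem
    · obtain ⟨C, c1, c2, c3⟩ := toCirc (f := orPeb P t q M e) (g := 1) (fun _ => true)
        (fun _ => Sum.inl p) (fun _ => Sum.inl p) (fun x _ => x p) 0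
        (by
          intro i k hk
          rcases hk with hk | hk <;> exact absurd hk (by simp))
        (by
          intro x i
          simp)
        (by
          intro x
          rw [hp])
      exact ⟨C, c1, by omega, c3⟩
    · obtain ⟨b, l, r, v, o, h1, h2, h3⟩ := prog_circuit hL _ hmem
      obtain ⟨C, c1, c2, c3⟩ := toCirc b l r v o h1 h2 h3
      exact ⟨C, c1, by omega, c3⟩
  obtain ⟨C0, c1, c2, c3⟩ := hC0
  refine ⟨ren (Fin.castAdd r) C0, ?_, c2, fun T 𝒯 h𝒯 hmono k hk p hcost hload => ?_⟩
  · intro i hi a h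
    have hg : (ren (Fin.castAdd r) C0).gate i = renG (Fin.castAdd r) (C0.gate i) := rfl
    rw [hg] at h
    have := c1 i hi
    cases hc : C0.gate i with
    | and a b => rw [hc] at h; simp [renG] at h
    | or a b => rw [hc] at h; simp [renG] at h
    | not a => exact this a hc
  · by_contra hcon
    push Not at hcon
    have hren : ∀ y : Fin U → Bool, (ren (Fin.castAdd r) C0).eval (PT.ext (r := r) k y) =
        C0.eval y := by
      intro y
      apply ren_eval
      intro i _
      simp only [PT.ext, Fin.append_left]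
    have hlt := copies_lt h𝒯 hmono lvl h2 hq h3 h4 (M := M)
      (fun Y => PT.ext (r := r) k (fill e Y)) (by
        intro i
        refine Fin.addCases (fun j => ?_) (fun j => ?_) i
        · simp only [PT.ext, Fin.append_left]
          exact fill_cases e j
        · right
          exact ⟨decide (j.val < k), fun Y => by simp only [PT.ext, Fin.append_right]⟩) p (by
        intro Y
        have hw := wt_ext (r := r) hk (fill e Y)
        have hy := wt_le (fill e Y)
        rw [hcon (PT.ext (r := r) k (fill e Y)) (by omega) (by omega), hren, c3]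
        have e1 : orPeb P t q M e (fill e Y) = true ↔
            ∃ J, pebF P t q (fun r => fill e Y (e (J, r))) := by
          unfold orPeb
          exact decide_eq_true_iff
        rw [e1]
        refine exists_congr fun J => ?_
        have : (fun r => fill e Y (e (J, r))) = Y J := by
          funext r
          exact fill_apply e e.injective Y (J, r)
        rw [this]) (h6 _ hload)
    omega

/-- The lower bound for path systems in a host. -/
theorem gen_host (D M : ℕ) (E : Type) [Fintype E] (g : E)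
    (hE : M * gno D + 1 ≤ Fintype.card E) :
    ∃ H : Set (PS E), H.ncard ≤ M * vno D ∧ ∀ (T : Type u) (𝒯 : Tests T (PS E)), RankTests 𝒯 →
      Prog.Mono 𝒯 → ∀ p : Prog T,
      p.load 𝒯 < 4 ^ (D + 1) →
      (∀ v : PS E → Bool, (∀ i, v i = true → i ∈ H) → (p.Acc 𝒯 v ↔ Solv v g)) →
      M < p.cost := by
  classical
  obtain ⟨V, dV, fV, P, t, lvl, d, q, hq, h1, h2, h3, h4, h5, h7, h6⟩ := exists_gadget D
  have hcard : Fintype.card (Fin M × V × Fin q) ≤ Fintype.card {e : E // e ≠ g} := by
    rw [Fintype.card_prod, Fintype.card_prod, Fintype.card_fin, Fintype.card_fin,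
      Fintype.card_subtype_compl, Fintype.card_subtype_eq]
    have := Nat.mul_le_mul_left M h7
    omega
  obtain ⟨e⟩ := Function.Embedding.nonempty_of_card_le hcard
  obtain ⟨ι, hιe⟩ : ∃ ι : Fin M × V × Fin q → E, ι = fun a => (e a).1 := ⟨_, rfl⟩
  have hι : Function.Injective ι := by
    rw [hιe]
    intro a b hab
    exact e.injective (Subtype.ext hab)
  have hg : ∀ a, ι a ≠ g := by
    intro a
    rw [hιe]
    exact (e a).2
  refine ⟨Set.range (code h1 t g ι), ?_, fun T 𝒯 h𝒯 hm p hload hp => ?_⟩
  · rw [← Set.image_univ, ← Finset.coe_univ]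
    refine (Set.ncard_image_le (Finset.finite_toSet _)).trans ?_
    rw [Set.ncard_coe_finset, Finset.card_univ, Fintype.card_prod, Fintype.card_fin]
    exact Nat.mul_le_mul_left M ((card_pvar' h1 hq).trans h5)
  · refine copies_lt h𝒯 hm lvl h2 hq h3 h4 (M := M) (fun Y => fill (code h1 t g ι) Y)
      (fun i => fill_cases _ i) p (fun Y => ?_) (h6 _ hload)
    rw [hp (fill (code h1 t g ι) Y) (fun i hi => by
      obtain ⟨J, r, hr, -⟩ := fill_true h1 g hι hg Y i hi
      exact ⟨(J, r), hr⟩)]
    exact solv_iff h1 g hι hg Y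

/-- The lower bound for path systems. -/
theorem gen_bound (D : ℕ) (E : Type) [Fintype E] (g : E) {T : Type u} {𝒯 : Tests T (PS E)}
    (h𝒯 : RankTests 𝒯) (hm : Prog.Mono 𝒯) (p : Prog T)
    (hload : p.load 𝒯 < 4 ^ (D + 1))
    (hp : ∀ v : PS E → Bool, p.Acc 𝒯 v ↔ Solv v g) :
    Fintype.card E ≤ gno D * p.cost := by
  have hg := gno_pos D
  have hE1 : 1 ≤ Fintype.card E := Fintype.card_pos_iff.mpr ⟨g⟩
  obtain ⟨M, hM⟩ : ∃ M, M = (Fintype.card E - 1) / gno D := ⟨_, rfl⟩
  have h1 : M * gno D ≤ Fintype.card E - 1 := by rw [hM]; exact Nat.div_mul_le_self _ _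
  obtain ⟨H, -, hH⟩ := gen_host.{u} D M E g (by omega)
  have h2 := hH T 𝒯 h𝒯 hm p hload (fun v _ => hp v)
  have h3 : Fintype.card E - 1 < (M + 1) * gno D := by
    rw [hM]
    have := Nat.lt_div_mul_add (a := Fintype.card E - 1) hg
    rw [Nat.add_mul, Nat.one_mul]
    exact this
  have h4 : (M + 1) * gno D ≤ p.cost * gno D := Nat.mul_le_mul_right _ h2
  rw [Nat.mul_comm (gno D)]
  omega

end Pool.Agent.W953.SR
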