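import Mathlib
import Pool.Agent.W953.SR.Core
import Pool.Agent.W953.NB.DTree
import Pool.Agent.H560R2.Cmp2

/-!
# Comparator circuits
-/

set_option autoImplicit false

namespace Pool.Agent.W953.SR

open Finset Pool.Agent.W953.SP

/-- A comparator circuit without negations on the variables `I`: a finite set `W` of wires, each of
which starts with a variable or a constant, a list of comparators, and an output wire. The
comparator `(a, b)` replaces the values `u`, `v` of the wires `a`, `b` by `u && v` and `u || v`. -/
structure Cmp (I : Type) where
  W : Type
  [fin : Fintype W]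
  [dec : DecidableEq W]
  init : W → I ⊕ Bool
  gates : List (W × W)
  out : W

attribute [instance] Cmp.fin Cmp.dec

/-- one comparator -/
def cstep {W : Type} [DecidableEq W] (g : W × W) (s : W → Bool) : W → Bool := fun k =>
  if k = g.1 then s g.1 && s g.2 else if k = g.2 then s g.1 || s g.2 else s k

/-- a list of comparators -/
def crun {W : Type} [DecidableEq W] : List (W × W) → (W → Bool) → W → Bool
  | [], s => s
  | g :: L, s => crun L (cstep g s)

namespace Cmp

variable {I J : Type}

/-- the values of the wires at the start -/
def start (C : Cmp I) (x : I → Bool) : C.W → Bool := fun k => Sum.elim x id (C.init k)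

/-- the value of the output wire -/
def val (C : Cmp I) (x : I → Bool) : Bool := crun C.gates (C.start x) C.out

/-- the number of wires -/
def wires (C : Cmp I) : ℕ := Fintype.card C.W

/-- the number of wires, or the number of comparators plus one if this is larger -/
def size (C : Cmp I) : ℕ := max C.wires (C.gates.length + 1)

end Cmp

/-! ### monotonicity -/

lemma cstep_mono {W : Type} [DecidableEq W] (g : W × W) {s s' : W → Bool}
    (h : ∀ k, s k = true → s' k = true) (k : W) (hk : cstep g s k = true) :
    cstep g s' k = true := by
  unfold cstep at hk ⊢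
  split_ifs with h1 h2
  · rw [if_pos h1] at hk
    rw [Bool.and_eq_true] at hk ⊢
    exact ⟨h _ hk.1, h _ hk.2⟩
  · rw [if_neg h1, if_pos h2] at hk
    rw [Bool.or_eq_true] at hk ⊢
    exact hk.imp (h _) (h _)
  · rw [if_neg h1, if_neg h2] at hk
    exact h _ hk

lemma crun_mono {W : Type} [DecidableEq W] (L : List (W × W)) : ∀ {s s' : W → Bool},
    (∀ k, s k = true → s' k = true) → ∀ k, crun L s k = true → crun L s' k = true := by
  induction L with
  | nil => exact fun h => h
  | cons g L ih => exact fun h => ih (cstep_mono g h)

lemma Cmp.val_mono {I : Type} (C : Cmp I) {x y : I → Bool} (h : ∀ i, x i = true → y i = true)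
    (hx : C.val x = true) : C.val y = true := by
  refine crun_mono _ (fun k hk => ?_) _ hx
  unfold Cmp.start at hk ⊢
  cases hi : C.init k with
  | inl i => rw [hi] at hk; exact h i hk
  | inr b => rw [hi] at hk; exact hk

/-! ### the rank bound -/

section

variable {K : Type} [Field K] {X Y : Type} [Fintype X] [Fintype Y] [DecidableEq X] [DecidableEq Y]
  {Z : Type} {W : Type} [Fintype W] [DecidableEq W]

open Pool.Agent.H560R2.CG (mu mu_const mu_bisub)

lemma crun_rank (A : Matrix X Y K) (α : X → Z) (β : Y → Z) (L : List (W × W)) :
    ∀ U : W → Z → Bool,
    ∑ k, mu A α β (fun z => crun L (fun j => U j z) k) ≤ ∑ k, mu A α β (U k) := by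
  induction L with
  | nil => exact fun U => le_rfl
  | cons g L ih =>
    intro U
    refine (ih (fun k z => cstep g (fun j => U j z) k)).trans ?_
    obtain ⟨i, j⟩ := g
    have hstep : ∀ k, (fun z => cstep (i, j) (fun l => U l z) k) =
        if k = i then (fun z => U i z && U j z) else if k = j then (fun z => U i z || U j z)
          else U k := by
      intro k
      funext z
      unfold cstep
      split_ifs <;> rfl
    simp only [hstep]
    by_cases hij : i = j
    · subst hij
      apply Finset.sum_le_sum
      intro k _
      by_cases hk : k = i
      · subst hk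
        simp only [if_true, Bool.and_self]
        exact le_rfl
      · simp only [if_neg hk]
        exact le_rfl
    · have hj : j ∈ univ.erase i := Finset.mem_erase.mpr ⟨fun h => hij h.symm, mem_univ _⟩
      rw [← Finset.add_sum_erase univ _ (mem_univ i), ← Finset.add_sum_erase _ _ hj]
      rw [← Finset.add_sum_erase univ (fun k => mu A α β (U k)) (mem_univ i),
        ← Finset.add_sum_erase _ (fun k => mu A α β (U k)) hj]
      have h1 := mu_bisub (A := A) (α := α) (β := β) (U i) (U j)
      have h2 : ∑ k ∈ (univ.erase i).erase j, mu A α β (if k = i then
          (fun z => U i z && U j z) else if k = j then (fun z => U i z || U j z) else U k) =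
          ∑ k ∈ (univ.erase i).erase j, mu A α β (U k) := by
        apply Finset.sum_congr rfl
        intro k hk
        rw [Finset.mem_erase, Finset.mem_erase] at hk
        rw [if_neg hk.2.1, if_neg hk.1]
      rw [h2]
      simp only [if_true, if_neg (fun h : j = i => hij h.symm)]
      omega

end

/-- the tests: comparator circuits without negations; the size is the number of wires -/
def wireTests (I : Type) : Tests (Cmp I) I where
  acc C x := C.val x = true
  size := Cmp.wires

/-- the tests: comparator circuits without negations; the size also counts comparators -/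
def cmpTests (I : Type) : Tests (Cmp I) I where
  acc C x := C.val x = true
  size := Cmp.size

lemma wireTests_mono (I : Type) : Prog.Mono (wireTests I) := fun C _ _ h hx => C.val_mono h hx

lemma mask_eq {K : Type} [Field K] {X Y : Type} [Fintype X] [Fintype Y] [DecidableEq X]
    [DecidableEq Y] {Z : Type} (A : Matrix X Y K) (α : X → Z) (β : Y → Z) (g : Z → Bool) :
    (SP.mask A (fun x => g (α x) = true) (fun y => g (β y) = false)).rank =
      Pool.Agent.H560R2.CG.mu A α β g := by
  unfold Pool.Agent.H560R2.CG.mu
  congr 1
  ext x y
  simp only [SP.mask, Pool.Agent.H560R2.msk, Matrix.of_apply, Bool.not_eq_true']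

theorem wireTests_rank (I : Type) : RankTests (wireTests I) := by
  intro C
  refine ⟨ℚ, inferInstance, fun X Y _ _ _ _ A α β U _ hU hβ m hm => ?_⟩
  have h1 : (SP.mask A U (fun _ => True)).rank ≤
      (SP.mask A (fun x => C.val (α x) = true) (fun y => C.val (β y) = false)).rank := by
    have e : SP.mask A U (fun _ => True) =
        Matrix.diagonal (fun x => if U x then (1 : ℚ) else 0) *
          SP.mask A (fun x => C.val (α x) = true) (fun y => C.val (β y) = false) := by
      ext x y
      rw [Matrix.diagonal_mul]
      simp only [SP.mask, Matrix.of_apply, and_true]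
      have hy : C.val (β y) = false := by
        have := hβ y
        exact Bool.eq_false_iff.mpr this
      by_cases hx : U x
      · have hx' : C.val (α x) = true := hU x hx
        rw [if_pos hx, if_pos hx, if_pos ⟨hx', hy⟩, one_mul]
      · rw [if_neg hx, if_neg hx, zero_mul]
    rw [e]
    exact Matrix.rank_mul_le_right _ _
  refine h1.trans ?_
  rw [mask_eq A α β (fun z => C.val z)]
  have h2 := crun_rank A α β C.gates (fun k z => C.start z k)
  have h3 : Pool.Agent.H560R2.CG.mu A α β (fun z => C.val z) ≤
      ∑ k, Pool.Agent.H560R2.CG.mu A α β (fun z => crun C.gates (fun j => C.start z j) k) :=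
    Finset.single_le_sum (f := fun k => Pool.Agent.H560R2.CG.mu A α β
      (fun z => crun C.gates (fun j => C.start z j) k)) (fun _ _ => Nat.zero_le _)
      (Finset.mem_univ C.out)
  refine h3.trans (h2.trans ?_)
  show _ ≤ Fintype.card C.W * m
  rw [← Finset.card_univ, ← smul_eq_mul]
  refine Finset.sum_le_card_nsmul _ _ _ (fun k _ => ?_)
  cases hk : C.init k with
  | inl i =>
    have e : (fun z : I → Bool => C.start z k) = fun z => z i := by
      funext z
      simp [Cmp.start, hk]
    rw [e, ← mask_eq A α β (fun z => z i)]
    exact hm i
  | inr b =>
    have e : (fun z : I → Bool => C.start z k) = fun _ => b := by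
      funext z
      simp [Cmp.start, hk]
    rw [e, Pool.Agent.H560R2.CG.mu_const]
    exact Nat.zero_le _

end Pool.Agent.W953.SR
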