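import Mathlib

/-!
# Configurations of the reversible pebble game on a path
-/

set_option autoImplicit false

namespace Pool.Agent.W953.SR

open Finset

/-- The sets of positions on a path that can be cleared: the pebble `v` is the last one, and there is
a pebble (or the start `0`) before `v` and close to `v`. -/
inductive Clr (d : ℕ) : Finset ℕ → Prop
  | nil : Clr d ∅
  | add (S : Finset ℕ) (v u : ℕ) (hv : v ∈ S) (hu : u = 0 ∨ u ∈ S) (h1 : u < v)
      (h2 : v ≤ u + 2 ^ (d - S.card)) (h : Clr d (S.erase v)) : Clr d S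

variable {d : ℕ}

/-- Every pebble that is close to an earlier one can be removed. -/
theorem Clr.erase : ∀ (m : ℕ) {S : Finset ℕ}, S.card = m → Clr d S → m ≤ d → ∀ (v u : ℕ), v ∈ S →
    (u = 0 ∨ u ∈ S) → u < v → v ≤ u + 2 ^ (d - m) → Clr d (S.erase v) := by
  intro m
  induction m with
  | zero =>
    intro S hS _ _ v u hv
    rw [Finset.card_eq_zero] at hS
    rw [hS] at hv
    simp at hv
  | succ m ih =>
    intro S hS hC hm v u hv hu huv hgap
    cases hC with
    | nil => simp at hv
    | add _ x u' hx hu' h1 h2 h =>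
      by_cases hxv : x = v
      · rw [← hxv]
        exact h
      · have e1 : 2 ^ (d - m) = 2 ^ (d - (m + 1)) + 2 ^ (d - (m + 1)) := by
          have : d - m = (d - (m + 1)) + 1 := by omega
          rw [this, pow_succ]
          ring
        rw [hS] at h2
        have hcx : (S.erase x).card = m := by
          rw [Finset.card_erase_of_mem hx, hS]; omega
        have hcv : (S.erase v).card = m := by
          rw [Finset.card_erase_of_mem hv, hS]; omega
        have hvx : v ∈ S.erase x := Finset.mem_erase.mpr ⟨fun h => hxv h.symm, hv⟩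
        have hxv' : x ∈ S.erase v := Finset.mem_erase.mpr ⟨hxv, hx⟩
        -- `v` can be removed from `S.erase x`
        have k1 : Clr d ((S.erase x).erase v) := by
          by_cases hux : u = x
          · refine ih hcx h (by omega) v u' hvx ?_ (by omega) (by omega)
            rcases hu' with h3 | h3
            · exact Or.inl h3
            · exact Or.inr (Finset.mem_erase.mpr ⟨by omega, h3⟩)
          · refine ih hcx h (by omega) v u hvx ?_ huv (by omega)
            rcases hu with h3 | h3
            · exact Or.inl h3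
            · exact Or.inr (Finset.mem_erase.mpr ⟨hux, h3⟩)
        rw [Finset.erase_right_comm] at k1
        -- `x` is a legal last pebble of `S.erase v`
        by_cases huv' : u' = v
        · refine Clr.add _ x u hxv' ?_ (by omega) (by rw [hcv]; omega) k1
          rcases hu with h3 | h3
          · exact Or.inl h3
          · exact Or.inr (Finset.mem_erase.mpr ⟨by omega, h3⟩)
        · refine Clr.add _ x u' hxv' ?_ h1 (by rw [hcv]; omega) k1
          rcases hu' with h3 | h3
          · exact Or.inl h3
          · exact Or.inr (Finset.mem_erase.mpr ⟨huv', h3⟩)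

/-- Pebbles are not far from the start. -/
theorem Clr.bound {S : Finset ℕ} (h : Clr d S) : S.card ≤ d → ∀ x ∈ S,
    x + 2 ^ (d - S.card) ≤ 2 ^ d := by
  induction h with
  | nil => intro _ x hx; simp at hx
  | add S v u hv hu h1 h2 _ ih =>
    intro hc x hx
    have hpos : 0 < S.card := Finset.card_pos.mpr ⟨v, hv⟩
    have hcv : (S.erase v).card = S.card - 1 := Finset.card_erase_of_mem hv
    have e1 : 2 ^ (d - (S.card - 1)) = 2 ^ (d - S.card) + 2 ^ (d - S.card) := by
      have : d - (S.card - 1) = (d - S.card) + 1 := by omega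
      rw [this, pow_succ]
      ring
    have e2 : 2 ^ (d - (S.card - 1)) ≤ 2 ^ d := Nat.pow_le_pow_right (by norm_num) (by omega)
    have ih' : ∀ y ∈ S.erase v, y + 2 ^ (d - (S.card - 1)) ≤ 2 ^ d := by
      intro y hy
      have := ih (by omega) y hy
      rwa [hcv] at this
    by_cases hxv : x = v
    · rw [hxv]
      rcases hu with h3 | h3
      · omega
      · have := ih' u (Finset.mem_erase.mpr ⟨by omega, h3⟩)
        omega
    · have := ih' x (Finset.mem_erase.mpr ⟨hxv, hx⟩)
      omega

/-- the predecessors on the path -/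
def ppre {n : ℕ} (v : Fin n) : Finset (Fin n) := univ.filter (fun u => u.val + 1 = v.val)

/-- the position -/
def posE (n : ℕ) : Fin n ↪ ℕ := ⟨fun v => v.val + 1, fun _ _ h => Fin.ext (Nat.succ.inj h)⟩

/-- the family of configurations -/
def Conf (d n : ℕ) (S : Finset (Fin n)) : Prop := S.card ≤ d ∧ Clr d (S.map (posE n))

lemma conf_empty (n : ℕ) : Conf d n ∅ := ⟨by simp, by simpa using Clr.nil⟩

lemma witness {n : ℕ} {v : Fin n} {S : Finset (Fin n)} (h : ppre v ⊆ S) :
    v.val = 0 ∨ v.val ∈ S.map (posE n) := by
  rcases Nat.eq_zero_or_pos v.val with h0 | h0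
  · exact Or.inl h0
  · right
    have hlt : v.val - 1 < n := by have := v.isLt; omega
    have hm : (⟨v.val - 1, hlt⟩ : Fin n) ∈ S := h (by
      unfold ppre
      rw [Finset.mem_filter]
      exact ⟨Finset.mem_univ _, by simp only; omega⟩)
    rw [Finset.mem_map]
    refine ⟨_, hm, ?_⟩
    show v.val - 1 + 1 = v.val
    omega

lemma conf_insert {n : ℕ} {v : Fin n} {S : Finset (Fin n)} (hS : Conf d n S) (h : ppre v ⊆ S)
    (hv : v ∉ S) (hc : S.card < d) : Conf d n (insert v S) := by
  obtain ⟨h1, h2⟩ := hS
  refine ⟨by rw [Finset.card_insert_of_notMem hv]; exact hc, ?_⟩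
  rw [Finset.map_insert]
  have hv' : posE n v ∉ S.map (posE n) := by
    rw [Finset.mem_map']
    exact hv
  refine Clr.add _ (posE n v) v.val (Finset.mem_insert_self _ _) ?_ (Nat.lt_succ_self _) ?_ ?_
  · rcases witness h with h3 | h3
    · exact Or.inl h3
    · exact Or.inr (Finset.mem_insert_of_mem h3)
  · show v.val + 1 ≤ v.val + _
    exact Nat.add_le_add_left Nat.one_le_two_pow _
  · rw [Finset.erase_insert hv']
    exact h2

lemma conf_erase {n : ℕ} {v : Fin n} {S : Finset (Fin n)} (hS : Conf d n S) (h : ppre v ⊆ S)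
    (hv : v ∈ S) : Conf d n (S.erase v) := by
  obtain ⟨h1, h2⟩ := hS
  refine ⟨(Finset.card_erase_le).trans h1, ?_⟩
  rw [Finset.map_erase]
  refine Clr.erase S.card (Finset.card_map _) h2 h1 (posE n v) v.val
    ((Finset.mem_map' _).mpr hv) (witness h) (Nat.lt_succ_self _) ?_
  show v.val + 1 ≤ v.val + _
  exact Nat.add_le_add_left Nat.one_le_two_pow _

lemma conf_last {n : ℕ} (hn : n = 2 ^ d) {t : Fin n} (ht : t.val + 1 = n)
    {S : Finset (Fin n)} (hS : Conf d n S) : t ∉ S := by
  intro h
  obtain ⟨h1, h2⟩ := hS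
  have h3 := h2.bound (by rw [Finset.card_map]; exact h1) (posE n t) ((Finset.mem_map' _).mpr h)
  have h4 : posE n t = 2 ^ d := by
    show t.val + 1 = 2 ^ d
    rw [ht, hn]
  rw [h4] at h3
  have h5 : 1 ≤ 2 ^ (d - (S.map (posE n)).card) := Nat.one_le_two_pow
  omega

end Pool.Agent.W953.SR
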