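import Mathlib
import Pool.Agent.W953.SR.Core
import Pool.Agent.W953.SR.Path

/-!
# The lower bound for any good family of configurations
-/

set_option autoImplicit false

namespace Pool.Agent.W953.SR

open Finset Pool.Agent.H560R2 Pool.Agent.W953.PT Pool.Agent.W953.SP Pool.Agent.H540R2
  Pool.Agent.H540R2.Circuit Pool.Agent.W953.NW

universe u

/-- a family of configurations that is closed under the moves of the reversible pebble game with
`d` pebbles and does not contain the sink -/
structure Good {V : Type} [DecidableEq V] (P : V → Finset V) (t : V) (d : ℕ)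
    (Q : Finset V → Prop) : Prop where
  nil : Q ∅
  card : ∀ S, Q S → S.card ≤ d
  ins : ∀ S v, Q S → P v ⊆ S → v ∉ S → S.card < d → Q (insert v S)
  ers : ∀ S v, Q S → P v ⊆ S → v ∈ S → Q (S.erase v)
  top : ∀ S, Q S → t ∉ S

section

variable {V : Type} [DecidableEq V] [Fintype V] {P : V → Finset V} {t : V} {d q : ℕ} {I : Type}
  {T : Type u}

/-- A family of tests that separates the positive inputs from the negative inputs is large. -/
theorem family_bound2 {𝒯 : Tests T I} (h𝒯 : RankTests 𝒯) (hq : 1 ≤ q) (hP : ∀ v, v ∉ P v)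
    (Q : Finset V → Prop) (hQ : Good P t d Q)
    (hn : d + 1 ≤ Fintype.card V) (α : (V → Fin q) → I → Bool)
    (β : (V → Fin q → Bool) → I → Bool)
    (hbase : ∀ i, (∃ r, (∀ x, α x i = pα P t q x r) ∧ ∀ y, β y i = pβ P t q y r) ∨
      ∃ c, (∀ x, α x i = c) ∧ ∀ y, β y i = c)
    (L : List T) (hα : ∀ x, ∃ S ∈ L, 𝒯.acc S (α x)) (hβ : ∀ y, ∀ S ∈ L, ¬ 𝒯.acc S (β y)) :
    q ^ (d + 1) ≤ (L.map 𝒯.size).sum * (Fintype.card V).choose d := by
  classical
  obtain ⟨n, hnn⟩ : ∃ n, Fintype.card V = n := ⟨_, rfl⟩
  set R : Finset (Finset V) := Finset.univ.filter (fun S => Q S) with hR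
  have hR0 : ∅ ∈ R := Finset.mem_filter.mpr ⟨Finset.mem_univ _, hQ.nil⟩
  have hRc : ∀ S ∈ R, S.card ≤ d := fun S hS => hQ.card S (Finset.mem_filter.mp hS).2
  have hRi : ∀ v, ∀ S ∈ R, P v ⊆ S → v ∉ S → S.card < d → insert v S ∈ R := by
    intro v S hS hPS hv hlt
    exact Finset.mem_filter.mpr ⟨Finset.mem_univ _,
      hQ.ins S v (Finset.mem_filter.mp hS).2 hPS hv hlt⟩
  have hRe : ∀ v, ∀ S ∈ R, P v ⊆ S → v ∈ S → S.erase v ∈ R := fun v S hS hPS hv =>
    Finset.mem_filter.mpr ⟨Finset.mem_univ _, hQ.ers S v (Finset.mem_filter.mp hS).2 hPS hv⟩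
  have hRt : ∀ S ∈ R, t ∉ S := fun S hS => hQ.top S (Finset.mem_filter.mp hS).2
  obtain ⟨r, hr⟩ : ∃ r, r = n.choose d * q ^ (n - (d + 1)) := ⟨_, rfl⟩
  have hone : ∀ S ∈ L, (univ.filter (fun x => 𝒯.acc S (α x))).card ≤ 𝒯.size S * r := by
    intro S hS
    obtain ⟨F, fF, hF⟩ := h𝒯 S
    refine (card_le_rank (amat F q R) (phi F q V) (amat_phi R hR0) _).trans ?_
    refine hF _ _ (amat F q R) α β _ (fun x hx => hx) (fun y => hβ y S hS) r ?_
    intro i
    rcases hbase i with ⟨⟨v, ρ⟩ | c, h1, h2⟩ | ⟨c, h1, h2⟩
    · have := mask_rank (F := F) (q := q) R d (P v) v (hP v) hRc (hRi v) (hRe v)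
          (fun x => α x i = true)
          (fun y => β y i = false) (by
            intro x y hx hy
            rw [h1] at hx
            rw [h2] at hy
            simp only [pα, decide_eq_true_eq] at hx
            simp only [pβ, decide_eq_false_iff_not, not_not] at hy
            refine ⟨fun i hi => ?_, ?_⟩
            · have := hx ⟨i, Finset.mem_insert_of_mem hi⟩
              simp only at this
              rw [this]
              exact hy.1 i hi
            · have := hx ⟨v, Finset.mem_insert_self _ _⟩
              simp only at this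
              rw [this]
              exact hy.2)
      rw [hnn, ← hr] at this
      exact this
    · have := mask_sink (F := F) (q := q) R t hRt (fun x => α x i = true)
          (fun y => β y i = false) (by
            intro x y hx hy
            rw [h1] at hx
            rw [h2] at hy
            simp only [pα, decide_eq_true_eq] at hx
            simp only [pβ, Bool.not_eq_false'] at hy
            rw [hx]
            exact hy)
      rw [this]
      exact Nat.zero_le _
    · have : SP.mask (amat F q R) (fun x => α x i = true) (fun y => β y i = false) = 0 := by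
        ext x y
        simp only [SP.mask, Matrix.of_apply, Matrix.zero_apply]
        rw [if_neg]
        rintro ⟨h3, h4⟩
        rw [h1] at h3
        rw [h2, h3] at h4
        exact absurd h4 (by simp)
      rw [this, Matrix.rank_zero]
      exact Nat.zero_le _
  have h1 := card_le_sum_list (fun (S : T) x => 𝒯.acc S (α x)) L univ (fun x _ => hα x)
  have h2 : (L.map (fun S => (univ.filter (fun x => 𝒯.acc S (α x))).card)).sum ≤
      (L.map 𝒯.size).sum * r := by
    rw [← List.sum_map_mul_right]
    exact List.sum_le_sum (fun S hS => hone S hS)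
  have h3 : q ^ n ≤ (L.map 𝒯.size).sum * r := by
    have h4 := h1.trans h2
    rw [Finset.card_univ, Fintype.card_fun, Fintype.card_fin, hnn] at h4
    exact h4
  rw [hnn] at hn ⊢
  rw [hr] at h3
  have hsplit : q ^ n = q ^ (n - (d + 1)) * q ^ (d + 1) := by
    rw [← pow_add]; congr 1; omega
  rw [hsplit] at h3
  have e : (L.map 𝒯.size).sum * (n.choose d * q ^ (n - (d + 1))) =
      q ^ (n - (d + 1)) * ((L.map 𝒯.size).sum * n.choose d) := by ring
  rw [e] at h3
  exact Nat.le_of_mul_le_mul_left h3 (by positivity)

/-- Many copies need many rounds. -/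
theorem copies_lt2 {𝒯 : Tests T I} (h𝒯 : RankTests 𝒯) (hm : Prog.Mono 𝒯) (lvl : V → ℕ)
    (hlvl : ∀ v, ∀ u ∈ P v, lvl u < lvl v) (hq : 1 ≤ q)
    (Q : Finset V → Prop) (hQ : Good P t d Q) (hn : d + 1 ≤ Fintype.card V) {M : ℕ}
    (emb : (Fin M → PVar P q → Bool) → I → Bool)
    (hemb : ∀ i, (∃ J r, ∀ Y, emb Y i = Y J r) ∨ ∃ c, ∀ Y, emb Y i = c)
    (p : Prog T)
    (hp : ∀ Y, p.Acc 𝒯 (emb Y) ↔ ∃ J, pebF P t q (Y J))
    (hload : p.load 𝒯 * (Fintype.card V).choose d < q ^ (d + 1)) : M < p.cost := by
  classical
  have hPv : ∀ v, v ∉ P v := fun v hv => lt_irrefl _ (hlvl v v hv)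
  have hz0 : ¬ pebF P t q (fun _ => false) := by
    rintro ⟨c, h, -⟩
    exact absurd h (by simp)
  -- monotonicity of the embedding
  have hmono : ∀ (y : Fin M → PVar P q → Bool) (J : Fin M) (X : PVar P q → Bool),
      y J = (fun _ => false) → ∀ i, emb y i = true → emb (Function.update y J X) i = true := by
    intro y J X hyJ i hi
    rcases hemb i with ⟨J', r, h⟩ | ⟨c, h⟩
    · rw [h] at hi ⊢
      by_cases hJ : J' = J
      · subst hJ
        rw [hyJ] at hi
        exact absurd hi (by simp)
      · rw [Function.update_of_ne hJ]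
        exact hi
    · rw [h] at hi ⊢
      exact hi
  obtain ⟨Y, h1, h2, h3⟩ := chain_core (κ := Fin M) (m := M)
    (fun X => ¬ pebF P t q X) (fun _ => false) hz0 id (fun _ _ h => h)
    (fun Y => p.tr 𝒯 (emb Y)) (by
      intro y J hy hyJ
      by_contra hcon
      push Not at hcon
      obtain ⟨L, hL1, hL2⟩ := Prog.flip hm p (emb y)
        {x | ∃ X, x = emb (Function.update y J X)} (by
          rintro _ ⟨X, rfl⟩
          exact hmono y J X hyJ) (by
          rintro _ ⟨X, rfl⟩ hrej
          have hX : ¬ pebF P t q X := by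
            intro hX
            exact hrej ((hp _).mpr ⟨J, by rwa [Function.update_self]⟩)
          exact hcon X hX)
      have hiff : ∀ X, (∃ S ∈ L, 𝒯.acc S (emb (Function.update y J X))) ↔ pebF P t q X := by
        intro X
        rw [← hL2 _ ⟨X, rfl⟩, hp]
        constructor
        · rintro ⟨J', hJ'⟩
          by_cases hJ : J' = J
          · subst hJ
            rwa [Function.update_self] at hJ'
          · rw [Function.update_of_ne hJ] at hJ'
            exact absurd hJ' (hy J')
        · intro hX
          exact ⟨J, by rwa [Function.update_self]⟩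
      have h5 := family_bound2 h𝒯 hq hPv Q hQ hn (fun x => emb (Function.update y J (pα P t q x)))
        (fun y' => emb (Function.update y J (pβ P t q y'))) (by
          intro i
          rcases hemb i with ⟨J', r, h⟩ | ⟨c, h⟩
          · by_cases hJ : J' = J
            · subst hJ
              left
              refine ⟨r, fun x => ?_, fun x => ?_⟩
              · rw [h, Function.update_self]
              · rw [h, Function.update_self]
            · right
              refine ⟨y J' r, fun x => ?_, fun x => ?_⟩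
              · rw [h, Function.update_of_ne hJ]
              · rw [h, Function.update_of_ne hJ]
          · exact Or.inr ⟨c, fun x => h _, fun x => h _⟩) L
        (fun x => (hiff _).mpr (peb_pos lvl hlvl x))
        (fun y' S hS hacc => peb_neg y' ((hiff _).mp ⟨S, hS, hacc⟩))
      have h6 : (L.map 𝒯.size).sum * (Fintype.card V).choose d ≤
          p.load 𝒯 * (Fintype.card V).choose d := Nat.mul_le_mul_right _ hL1
      omega)
  refine Prog.chain_lt hm p (fun i => emb (Y i)) M (fun i hi => ⟨?_, h2 i hi⟩)
  obtain ⟨J, X, hJ, hX⟩ := h1 i hi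
  show ∀ j, emb (Y i) j = true → emb (Y (i + 1)) j = true
  rw [hX]
  exact hmono (Y i) J X hJ

end

end Pool.Agent.W953.SR
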