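import Mathlib
import Pool.Agent.W953.SR.Gen2

/-!
# The lower bound for inputs from a restricted domain
-/

set_option autoImplicit false

namespace Pool.Agent.W953.SR

open Finset Pool.Agent.H560R2 Pool.Agent.W953.PT Pool.Agent.W953.SP Pool.Agent.H540R2
  Pool.Agent.H540R2.Circuit Pool.Agent.W953.NW

universe u

/-- Coordinate `i` of the inputs `α x`, `β y` speaks about one rule or about the sink. -/
def OneRule {V : Type} (P : V → Finset V) (t : V) {q : ℕ} {I : Type} (α : (V → Fin q) → I → Bool)
    (β : (V → Fin q → Bool) → I → Bool) (i : I) : Prop :=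
  (∃ v, ∀ x y, α x i = true → β y i = false → (∀ u ∈ P v, y u (x u) = true) ∧ y v (x v) = false) ∨
  (∀ x y, α x i = true → β y i = false → y t (x t) = true) ∨
  ∀ x y, α x i = true → β y i = false → False

section

variable {V : Type} [DecidableEq V] [Fintype V] {P : V → Finset V} {t : V} {d q : ℕ} {I : Type}
  {T : Type u}

/-- A family of tests that separates the positive inputs from the negative inputs is large. -/
theorem family_bound3 {𝒯 : Tests T I} (h𝒯 : RankTests 𝒯) (hq : 1 ≤ q) (hP : ∀ v, v ∉ P v)
    (Q : Finset V → Prop) (hQ : Good P t d Q)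
    (hn : d + 1 ≤ Fintype.card V) (α : (V → Fin q) → I → Bool)
    (β : (V → Fin q → Bool) → I → Bool) (hbase : ∀ i, OneRule P t α β i)
    (L : List T) (hα : ∀ x, ∃ S ∈ L, 𝒯.acc S (α x)) (hβ : ∀ y, ∀ S ∈ L, ¬ 𝒯.acc S (β y)) :
    q ^ (d + 1) ≤ (L.map 𝒯.size).sum * (Fintype.card V).choose d := by
  classical
  obtain ⟨n, hnn⟩ : ∃ n, Fintype.card V = n := ⟨_, rfl⟩
  set R : Finset (Finset V) := Finset.univ.filter (fun S => Q S) with hR
  have hR0 : ∅ ∈ R := Finset.mem_filter.mpr ⟨Finset.mem_univ _, hQ.nil⟩
  have hRc : ∀ S ∈ R, S.card ≤ d := fun S hS => hQ.card S (Finset.mem_filter.mp hS).2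
  have hRi : ∀ v, ∀ S ∈ R, P v ⊆ S → v ∉ S → S.card < d → insert v S ∈ R := by
    intro v S hS hPS hv hlt
    exact Finset.mem_filter.mpr ⟨Finset.mem_univ _,
      hQ.ins S v (Finset.mem_filter.mp hS).2 hPS hv hlt⟩
  have hRe : ∀ v, ∀ S ∈ R, P v ⊆ S → v ∈ S → S.erase v ∈ R := fun v S hS hPS hv =>
    Finset.mem_filter.mpr ⟨Finset.mem_univ _, hQ.ers S v (Finset.mem_filter.mp hS).2 hPS hv⟩
  have hRt : ∀ S ∈ R, t ∉ S := fun S hS => hQ.top S (Finset.mem_filter.mp hS).2
  obtain ⟨r, hr⟩ : ∃ r, r = n.choose d * q ^ (n - (d + 1)) := ⟨_, rfl⟩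
  have hone : ∀ S ∈ L, (univ.filter (fun x => 𝒯.acc S (α x))).card ≤ 𝒯.size S * r := by
    intro S hS
    obtain ⟨F, fF, hF⟩ := h𝒯 S
    refine (card_le_rank (amat F q R) (phi F q V) (amat_phi R hR0) _).trans ?_
    refine hF _ _ (amat F q R) α β _ (fun x hx => hx) (fun y => hβ y S hS) r ?_
    intro i
    rcases hbase i with ⟨v, h1⟩ | h1 | h1
    · have := mask_rank (F := F) (q := q) R d (P v) v (hP v) hRc (hRi v) (hRe v)
          (fun x => α x i = true) (fun y => β y i = false) h1
      rw [hnn, ← hr] at this
      exact this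
    · have := mask_sink (F := F) (q := q) R t hRt (fun x => α x i = true)
          (fun y => β y i = false) h1
      rw [this]
      exact Nat.zero_le _
    · have : SP.mask (amat F q R) (fun x => α x i = true) (fun y => β y i = false) = 0 := by
        ext x y
        simp only [SP.mask, Matrix.of_apply, Matrix.zero_apply]
        rw [if_neg]
        rintro ⟨h3, h4⟩
        exact h1 x y h3 h4
      rw [this, Matrix.rank_zero]
      exact Nat.zero_le _
  have h1 := card_le_sum_list (fun (S : T) x => 𝒯.acc S (α x)) L univ (fun x _ => hα x)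
  have h2 : (L.map (fun S => (univ.filter (fun x => 𝒯.acc S (α x))).card)).sum ≤
      (L.map 𝒯.size).sum * r := by
    rw [← List.sum_map_mul_right]
    exact List.sum_le_sum (fun S hS => hone S hS)
  have h3 : q ^ n ≤ (L.map 𝒯.size).sum * r := by
    have h4 := h1.trans h2
    rw [Finset.card_univ, Fintype.card_fun, Fintype.card_fin, hnn] at h4
    exact h4
  rw [hnn] at hn ⊢
  rw [hr] at h3
  have hsplit : q ^ n = q ^ (n - (d + 1)) * q ^ (d + 1) := by
    rw [← pow_add]; congr 1; omega
  rw [hsplit] at h3
  have e : (L.map 𝒯.size).sum * (n.choose d * q ^ (n - (d + 1))) =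
      q ^ (n - (d + 1)) * ((L.map 𝒯.size).sum * n.choose d) := by ring
  rw [e] at h3
  exact Nat.le_of_mul_le_mul_left h3 (by positivity)

/-- Many copies need many rounds, even if the computation is only correct when each copy is the
zero input, a positive input or a negative input of the list. -/
theorem copies_dom {𝒯 : Tests T I} (h𝒯 : RankTests 𝒯) (hm : Prog.Mono 𝒯)
    (hPv : ∀ v, v ∉ P v) (hq : 1 ≤ q)
    (Q : Finset V → Prop) (hQ : Good P t d Q) (hn : d + 1 ≤ Fintype.card V) {M : ℕ} {W : Type}
    (α : (V → Fin q) → W → Bool) (β : (V → Fin q → Bool) → W → Bool)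
    (hbase : ∀ w, OneRule P t α β w)
    (emb : (Fin M → W → Bool) → I → Bool)
    (hemb : ∀ i, (∃ J w, ∀ Y, emb Y i = Y J w) ∨ ∃ c, ∀ Y, emb Y i = c)
    (p : Prog T)
    (hneg : ∀ Y : Fin M → W → Bool, (∀ J, Y J = (fun _ => false) ∨ ∃ y, Y J = β y) →
      ¬ p.Acc 𝒯 (emb Y))
    (hpos : ∀ Y : Fin M → W → Bool, (∀ J, Y J = (fun _ => false) ∨ ∃ y, Y J = β y) → ∀ J x,
      p.Acc 𝒯 (emb (Function.update Y J (α x))))
    (hload : p.load 𝒯 * (Fintype.card V).choose d < q ^ (d + 1)) : M < p.cost := by
  classical
  -- monotonicity of the embedding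
  have hmono : ∀ (y : Fin M → W → Bool) (J : Fin M) (X : W → Bool),
      y J = (fun _ => false) → ∀ i, emb y i = true → emb (Function.update y J X) i = true := by
    intro y J X hyJ i hi
    rcases hemb i with ⟨J', r, h⟩ | ⟨c, h⟩
    · rw [h] at hi ⊢
      by_cases hJ : J' = J
      · subst hJ
        rw [hyJ] at hi
        exact absurd hi (by simp)
      · rw [Function.update_of_ne hJ]
        exact hi
    · rw [h] at hi ⊢
      exact hi
  obtain ⟨Y, h1, h2, h3⟩ := chain_core (κ := Fin M) (m := M)
    (fun X : W → Bool => X = (fun _ => false) ∨ ∃ y, X = β y) (fun _ => false) (Or.inl rfl) id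
    (fun _ _ h => h)
    (fun Y => p.tr 𝒯 (emb Y)) (by
      intro y J hy hyJ
      by_contra hcon
      push Not at hcon
      have hupd : ∀ X : W → Bool, (X = (fun _ => false) ∨ ∃ y, X = β y) →
          ∀ J', Function.update y J X J' = (fun _ => false) ∨
            ∃ y', Function.update y J X J' = β y' := by
        intro X hX J'
        by_cases hJ : J' = J
        · subst hJ
          rw [Function.update_self]
          exact hX
        · rw [Function.update_of_ne hJ]
          exact hy J'
      obtain ⟨L, hL1, hL2⟩ := Prog.flip hm p (emb y)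
        {x | (∃ z, x = emb (Function.update y J (β z))) ∨
          ∃ z, x = emb (Function.update y J (α z))} (by
          rintro _ (⟨z, rfl⟩ | ⟨z, rfl⟩)
          · exact hmono y J _ hyJ
          · exact hmono y J _ hyJ) (by
          rintro _ (⟨z, rfl⟩ | ⟨z, rfl⟩) hrej
          · exact hcon _ (Or.inr ⟨z, rfl⟩)
          · exact absurd (hpos y hy J z) hrej)
      have h5 := family_bound3 h𝒯 hq hPv Q hQ hn (fun x => emb (Function.update y J (α x)))
        (fun z => emb (Function.update y J (β z))) (by
          intro i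
          rcases hemb i with ⟨J', r, h⟩ | ⟨c, h⟩
          · by_cases hJ : J' = J
            · subst hJ
              have e1 : ∀ x, emb (Function.update y J' (α x)) i = α x r := fun x => by
                rw [h, Function.update_self]
              have e2 : ∀ z, emb (Function.update y J' (β z)) i = β z r := fun z => by
                rw [h, Function.update_self]
              rcases hbase r with ⟨v, h6⟩ | h6 | h6
              · refine Or.inl ⟨v, fun x z hx hz => h6 x z ?_ ?_⟩
                · rw [← e1]; exact hx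
                · rw [← e2]; exact hz
              · refine Or.inr (Or.inl fun x z hx hz => h6 x z ?_ ?_)
                · rw [← e1]; exact hx
                · rw [← e2]; exact hz
              · refine Or.inr (Or.inr fun x z hx hz => h6 x z ?_ ?_)
                · rw [← e1]; exact hx
                · rw [← e2]; exact hz
            · refine Or.inr (Or.inr fun x z hx hz => ?_)
              simp only [h, Function.update_of_ne hJ] at hx hz
              rw [hx] at hz
              exact absurd hz (by simp)
          · refine Or.inr (Or.inr fun x z hx hz => ?_)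
            simp only [h] at hx hz
            rw [hx] at hz
            exact absurd hz (by simp)) L
        (fun x => (hL2 _ (Or.inr ⟨x, rfl⟩)).mp (hpos y hy J x))
        (fun z S hS hacc => hneg _ (hupd (β z) (Or.inr ⟨z, rfl⟩))
          ((hL2 _ (Or.inl ⟨z, rfl⟩)).mpr ⟨S, hS, hacc⟩))
      have h6 : (L.map 𝒯.size).sum * (Fintype.card V).choose d ≤
          p.load 𝒯 * (Fintype.card V).choose d := Nat.mul_le_mul_right _ hL1
      omega)
  refine Prog.chain_lt hm p (fun i => emb (Y i)) M (fun i hi => ⟨?_, h2 i hi⟩)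
  obtain ⟨J, X, hJ, hX⟩ := h1 i hi
  show ∀ j, emb (Y i) j = true → emb (Y (i + 1)) j = true
  rw [hX]
  exact hmono (Y i) J X hJ

end

end Pool.Agent.W953.SR
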