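import Mathlib
import Pool.Agent.W953.SR.Gen3
import Pool.Agent.H589R2.MNL.Dom3

/-!
# The reversible pebble game on the complete binary tree
-/

set_option autoImplicit false

namespace Pool.Agent.W953.SR

open Finset

open Pool.Agent.H589R2.MNL (Nd)

/-- the children of a node of the complete binary tree of height `h` -/
def kids (h : ℕ) (v : Nd h) : Finset (Nd h) :=
  if hv : v.1.length < h then
    {⟨v.1 ++ [false], by rw [List.length_append, List.length_singleton]; omega⟩,
      ⟨v.1 ++ [true], by rw [List.length_append, List.length_singleton]; omega⟩}
  else ∅

/-- the root -/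
def root (h : ℕ) : Nd h := ⟨[], by simp⟩

variable {h : ℕ}

lemma mem_kids {v u : Nd h} : u ∈ kids h v ↔ v.1.length < h ∧ ∃ b, u.1 = v.1 ++ [b] := by
  unfold kids
  by_cases hv : v.1.length < h
  · rw [dif_pos hv, Finset.mem_insert, Finset.mem_singleton]
    constructor
    · rintro (rfl | rfl)
      · exact ⟨hv, false, rfl⟩
      · exact ⟨hv, true, rfl⟩
    · rintro ⟨_, b, hb⟩
      cases b
      · exact Or.inl (Subtype.ext hb)
      · exact Or.inr (Subtype.ext hb)
  · rw [dif_neg hv]
    constructor
    · intro hu
      exact absurd hu (Finset.notMem_empty _)
    · rintro ⟨h1, _⟩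
      exact absurd h1 hv

lemma notMem_kids (v : Nd h) : v ∉ kids h v := by
  intro hv
  obtain ⟨_, b, hb⟩ := mem_kids.mp hv
  have := congrArg List.length hb
  rw [List.length_append, List.length_singleton] at this
  omega

/-- The configurations: at most `h` pebbles, and some path from the root to a leaf is free. -/
def TConf (h : ℕ) (S : Finset (Nd h)) : Prop :=
  S.card ≤ h ∧ ∃ w : List Bool, w.length = h ∧ ∀ v ∈ S, ¬ v.1 <+: w

/-- the leaf that leaves the path `w` at height `i` -/
def side (h : ℕ) (w : List Bool) (i : ℕ) : List Bool :=
  w.take i ++ (!(w.getD i false)) :: List.replicate (h - 1 - i) false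

lemma side_length {w : List Bool} (hw : w.length = h) {i : ℕ} (hi : i < h) :
    (side h w i).length = h := by
  unfold side
  rw [List.length_append, List.length_cons, List.length_replicate, List.length_take, hw]
  omega

lemma side_take {w : List Bool} (hw : w.length = h) {i : ℕ} (hi : i < h) {j : ℕ} (hj : j ≤ i) :
    (side h w i).take j = w.take j := by
  unfold side
  rw [List.take_append_of_le_length (by rw [List.length_take, hw]; omega), List.take_take,
    Nat.min_eq_left hj]

lemma side_take_succ {w : List Bool} (hw : w.length = h) {i : ℕ} (hi : i < h) :
    (side h w i).take (i + 1) = w.take i ++ [!(w.getD i false)] := by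
  have hl : (w.take i).length = i := by rw [List.length_take, hw]; omega
  unfold side
  rw [List.take_append, hl, List.take_of_length_le (by rw [hl]; omega)]
  congr 1
  have : i + 1 - i = 1 := by omega
  rw [this]
  rfl

lemma take_succ_getD {w : List Bool} {i : ℕ} (hi : i < w.length) :
    w.take (i + 1) = w.take i ++ [w.getD i false] := by
  rw [List.take_succ_eq_append_getElem hi, List.getD_eq_getElem _ _ hi]

/-- A common prefix of `side i` and `side j` is a prefix of `w`. -/
lemma side_prefix {w : List Bool} (hw : w.length = h) {i j : ℕ} (hij : i < j) (hj : j ≤ h)
    {u l : List Bool} (h1 : u <+: side h w i) (h2 : u <+: l) (hl : l.take (i + 1) = w.take (i + 1)) :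
    u <+: w := by
  have hi : i < h := by omega
  have e1 : u = (side h w i).take u.length := List.prefix_iff_eq_take.mp h1
  have e2 : u = l.take u.length := List.prefix_iff_eq_take.mp h2
  by_cases hu : u.length ≤ i
  · rw [side_take hw hi hu] at e1
    rw [e1]
    exact List.take_prefix _ _
  · exfalso
    have e3 : u.take (i + 1) = (side h w i).take (i + 1) := by
      conv_lhs => rw [e1]
      rw [List.take_take, Nat.min_eq_left (by omega)]
    have e4 : u.take (i + 1) = l.take (i + 1) := by
      conv_lhs => rw [e2]
      rw [List.take_take, Nat.min_eq_left (by omega)]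
    rw [e3, side_take_succ hw hi, hl, take_succ_getD (by omega)] at e4
    have e5 := List.append_cancel_left e4
    simp only [List.cons.injEq, and_true] at e5
    cases h6 : w.getD i false <;> rw [h6] at e5 <;> simp at e5

/-- The configurations are closed under the moves. -/
theorem tconf_good (h : ℕ) : Good (kids h) (root h) h (TConf h) where
  nil := ⟨by simp, List.replicate h false, by simp, by simp⟩
  card := fun _ hS => hS.1
  ers := fun S v hS _ _ => by
    obtain ⟨h1, w, h2, h3⟩ := hS
    exact ⟨(Finset.card_erase_le).trans h1, w, h2, fun u hu => h3 u (Finset.mem_of_mem_erase hu)⟩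
  top := fun S hS ht => by
    obtain ⟨_, w, _, h3⟩ := hS
    exact h3 _ ht (List.nil_prefix)
  ins := by
    classical
    rintro S v ⟨h1, w, h2, h3⟩ hP hv hc
    refine ⟨by rw [Finset.card_insert_of_notMem hv]; omega, ?_⟩
    by_cases hvw : v.1 <+: w
    · -- `v` is the leaf of the path
      have hvl : ¬ v.1.length < h := by
        intro hlt
        obtain ⟨s, hs⟩ := hvw
        cases s with
        | nil =>
          rw [List.append_nil] at hs
          rw [hs] at hlt
          omega
        | cons b s =>
          have hlen : (v.1 ++ [b]).length ≤ h := by
            rw [List.length_append, List.length_singleton]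
            omega
          refine h3 ⟨v.1 ++ [b], hlen⟩ (hP (mem_kids.mpr ⟨hlt, b, rfl⟩)) ⟨s, ?_⟩
          rw [← hs]
          simp
      have hveq : v.1 = w := by
        apply hvw.eq_of_length_le
        have := v.2
        omega
      by_contra hcon
      push Not at hcon
      have hex : ∀ i : Fin h, ∃ u ∈ S, u.1 <+: side h w i := by
        intro i
        obtain ⟨u, hu, hp⟩ := hcon (side h w i) (side_length h2 i.isLt)
        rcases Finset.mem_insert.mp hu with rfl | hu
        · exfalso
          rw [hveq] at hp
          have e1 : w = side h w i := hp.eq_of_length_le (by rw [h2, side_length h2 i.isLt])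
          have e2 := side_take_succ h2 i.isLt
          rw [← e1, take_succ_getD (by rw [h2]; exact i.isLt)] at e2
          have e5 := List.append_cancel_left e2
          simp only [List.cons.injEq, and_true] at e5
          cases h6 : w.getD i.val false <;> rw [h6] at e5 <;> simp at e5
        · exact ⟨u, hu, hp⟩
      choose g hgS hgp using hex
      have hinj : Function.Injective g := by
        have key : ∀ i j : Fin h, i < j → g i ≠ g j := by
          intro i j hij he
          have hp1 := hgp i
          have hp2 := hgp j
          rw [← he] at hp2
          refine h3 _ (hgS i) (side_prefix h2 (j := j) hij (by omega) hp1 hp2 ?_)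
          exact side_take h2 j.isLt (by omega)
        intro i j he
        rcases lt_trichotomy i j with hlt | heq | hgt
        · exact absurd he (key i j hlt)
        · exact heq
        · exact absurd he.symm (key j i hgt)
      have hcard : h ≤ S.card := by
        have := Finset.card_le_card_of_injOn (s := (Finset.univ : Finset (Fin h))) (t := S) g
          (fun i _ => hgS i) (hinj.injOn)
        rwa [Finset.card_univ, Fintype.card_fin] at this
      omega
    · refine ⟨w, h2, fun u hu => ?_⟩
      rcases Finset.mem_insert.mp hu with rfl | hu
      · exact hvw
      · exact h3 u hu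

/-- The number of nodes. -/
lemma card_nd_le (h : ℕ) : Fintype.card (Nd h) ≤ 2 ^ (h + 1) := by
  classical
  let g : Nd h → (Fin (h + 1) → Bool) := fun u i => (u.1 ++ [true]).getD i false
  have key : ∀ u v : Nd h, u.1.length < v.1.length → g u ≠ g v := by
    intro u v huv he
    have h1 := congrFun he ⟨v.1.length, by have := v.2; omega⟩
    simp only [g] at h1
    rw [List.getD_eq_default _ _ (by rw [List.length_append, List.length_singleton]; omega)] at h1
    rw [List.getD_eq_getElem _ _ (by rw [List.length_append, List.length_singleton]; omega)] at h1
    simp at h1
  have hinj : Function.Injective g := by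
    intro u v he
    rcases lt_trichotomy u.1.length v.1.length with hlt | heq | hgt
    · exact absurd he (key u v hlt)
    · apply Subtype.ext
      apply List.ext_getElem heq
      intro i hi hi'
      have h1 := congrFun he ⟨i, by have := u.2; omega⟩
      simp only [g] at h1
      rw [List.getD_eq_getElem _ _ (by rw [List.length_append, List.length_singleton]; omega),
        List.getD_eq_getElem _ _ (by rw [List.length_append, List.length_singleton]; omega),
        List.getElem_append_left hi, List.getElem_append_left hi'] at h1
      exact h1
    · exact absurd he.symm (key v u hgt)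
  have := Fintype.card_le_of_injective g hinj
  rwa [Fintype.card_fun, Fintype.card_fin, Fintype.card_bool] at this

lemma le_card_nd (h : ℕ) : h + 1 ≤ Fintype.card (Nd h) := by
  classical
  have := Fintype.card_le_of_injective (fun i : Fin (h + 1) =>
    (⟨List.replicate i.val false, by rw [List.length_replicate]; omega⟩ : Nd h)) (by
      intro i j he
      have h1 := congrArg (fun u : Nd h => u.1.length) he
      simp only [List.length_replicate] at h1
      exact Fin.ext h1)
  rwa [Fintype.card_fin] at this

end Pool.Agent.W953.SR
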