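import Mathlib
import Pool.Agent.W953.SR.TreeG

/-!
# A deterministic context-free language is hard for computations in rounds
-/

set_option autoImplicit false

namespace Pool.Agent.W953.SR

open Finset Pool.Agent.W953.SP

open Pool.Agent.H589R2.MNL (Nd Vr Tg S3 Sk mach3 rn rn_dead rn_trans rn_append mach3_accepts_iff
  mach3_accepts tenc tblks length_tenc length_tblks evb evb_tblks KK DGood dgood_iff dgood_good
  dgood_xpos not_good_xneg not_good_zero xpos xneg xpos_iff xneg_some yv_some yv lext sv
  good_mono elim_map)

universe u

section

variable {m h : ℕ}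

lemma lext_val (hm : 1 ≤ m) (l : Nd h → Fin m) {u : List Bool} (hu : u.length ≤ h) :
    lext hm h l u = l ⟨u, hu⟩ := by
  unfold lext
  rw [dif_pos hu]

lemma sv_val (S : Nd h × Fin m → Bool) {u : List Bool} (hu : u.length ≤ h) (a : Fin m) :
    sv h S u a = S (⟨u, hu⟩, a) := by
  unfold sv
  rw [dif_pos hu]

/-- the positive inputs -/
noncomputable def tα (hm : 1 ≤ m) (h : ℕ) (x : Nd h → Fin m) : Vr m → Bool := xpos hm h x

/-- the negative inputs -/
def tβ (m h : ℕ) (y : Nd h → Fin m → Bool) : Vr m → Bool := xneg h (fun z => y z.1 z.2)

/-- Every variable speaks about one rule. -/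
lemma oneRule_tree (hm : 1 ≤ m) (w : Vr m) :
    OneRule (kids h) (root h) (tα hm h) (tβ m h) w := by
  obtain ⟨κ, a, b, c⟩ := w
  rcases κ with _ | u
  · refine Or.inr (Or.inl fun x y hx hy => ?_)
    obtain ⟨κ, hκ⟩ := (xpos_iff hm h x _).mp hx
    have ha : a = x (root h) := by
      rcases κ with _ | u'
      · simp only [yv, Prod.mk.injEq] at hκ
        rw [hκ.2.1, lext_val hm x (by simp)]
        rfl
      · rw [yv_some] at hκ
        by_cases h1 : u'.length = h
        · rw [if_pos h1] at hκ
          simp at hκ
        · rw [if_neg h1] at hκ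
          simp at hκ
    have hy' : (!(sv h (fun z : Nd h × Fin m => y z.1 z.2) [] a)) = false := hy
    rw [sv_val _ (by simp), ha, Bool.not_eq_false'] at hy'
    exact hy'
  · have hpos : ∀ x : Nd h → Fin m, tα hm h x (some u, a, b, c) = true →
        (some u, a, b, c) = yv hm h (some u) x := by
      intro x hx
      obtain ⟨κ, hκ⟩ := (xpos_iff hm h x _).mp hx
      rcases κ with _ | u'
      · simp [yv] at hκ
      · have : u = u' := by
          rw [yv_some] at hκ
          by_cases h1 : u'.length = h
          · rw [if_pos h1] at hκ
            simp only [Prod.mk.injEq, Option.some.injEq] at hκ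
            exact hκ.1
          · rw [if_neg h1] at hκ
            simp only [Prod.mk.injEq, Option.some.injEq] at hκ
            exact hκ.1
        rw [this]
        rw [this] at hκ
        exact hκ
    have hneg : ∀ y : Nd h → Fin m → Bool, tβ m h y (some u, a, b, c) = false →
        (if u.length = h then sv h (fun z : Nd h × Fin m => y z.1 z.2) u a
        else if u.length < h then
          !(!(sv h (fun z : Nd h × Fin m => y z.1 z.2) u a) &&
            sv h (fun z : Nd h × Fin m => y z.1 z.2) (u ++ [false]) b &&
            sv h (fun z : Nd h × Fin m => y z.1 z.2) (u ++ [true]) c)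
        else true) = false := by
      intro y hy
      rw [← xneg_some]
      exact hy
    rcases lt_trichotomy u.length h with hlt | heq | hgt
    · have e0 : (u ++ [false]).length ≤ h := by
        rw [List.length_append, List.length_singleton]; omega
      have e1 : (u ++ [true]).length ≤ h := by
        rw [List.length_append, List.length_singleton]; omega
      refine Or.inl ⟨⟨u, hlt.le⟩, fun x y hx hy => ?_⟩
      have h1 := hpos x hx
      rw [yv_some, if_neg (by omega)] at h1
      simp only [Prod.mk.injEq, true_and] at h1
      obtain ⟨ha, hb, hc⟩ := h1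
      rw [lext_val hm x hlt.le] at ha
      rw [lext_val hm x e0] at hb
      rw [lext_val hm x e1] at hc
      have h2 := hneg y hy
      rw [if_neg (by omega), if_pos hlt, sv_val _ hlt.le, sv_val _ e0, sv_val _ e1, ha, hb, hc] at h2
      simp only [Bool.not_eq_false', Bool.and_eq_true, Bool.not_eq_true'] at h2
      obtain ⟨⟨h3, h4⟩, h5⟩ := h2
      refine ⟨fun v hv => ?_, h3⟩
      obtain ⟨_, b', hb'⟩ := mem_kids.mp hv
      cases b'
      · have : v = ⟨u ++ [false], e0⟩ := Subtype.ext hb'
        rw [this]
        exact h4
      · have : v = ⟨u ++ [true], e1⟩ := Subtype.ext hb'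
        rw [this]
        exact h5
    · refine Or.inl ⟨⟨u, heq.le⟩, fun x y hx hy => ?_⟩
      have h1 := hpos x hx
      rw [yv_some, if_pos heq] at h1
      simp only [Prod.mk.injEq, true_and] at h1
      obtain ⟨ha, _, _⟩ := h1
      rw [lext_val hm x heq.le] at ha
      have h2 := hneg y hy
      rw [if_pos heq, sv_val _ heq.le, ha] at h2
      refine ⟨fun v hv => ?_, h2⟩
      have := (mem_kids.mp hv).1
      simp only at this
      omega
    · refine Or.inr (Or.inr fun x y _ hy => ?_)
      have h2 := hneg y hy
      rw [if_neg (by omega), if_neg (by omega)] at h2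
      exact absurd h2 (by simp)

/-- Padding does not change the acceptance. -/
lemma mach3_pad (w' w : List (Tg × Bool)) (hw : ∀ a ∈ w', a.1 ≠ Tg.tN) :
    mach3.Accepts (w' ++ w) ↔ mach3.Accepts w := by
  have h1 : rn w' (S3.dead, [Sk.B]) = some (S3.dead, [Sk.B]) := rn_dead _ hw _ (by simp)
  rw [mach3_accepts_iff, mach3_accepts_iff, rn_append, h1]
  rfl

/-- A word that agrees with `B` after the padding. -/
lemma accepts_full {M r : ℕ} {B full : List (Tg × (Bool ⊕ (Fin M × Vr m)))}
    (hfull : full = List.replicate r (Tg.tF, Sum.inl false) ++ B) (X : Fin M × Vr m → Bool)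
    (x : Fin full.length → Bool)
    (hx : ∀ i : Fin full.length, r ≤ i.val → x i = Sum.elim id X (full.get i).2) :
    mach3.Accepts (List.ofFn fun i => ((full.get i).1, x i)) ↔ mach3.Accepts (evb (Sum.elim id X) B)
    := by
  obtain ⟨L, hL⟩ : ∃ L, L = List.ofFn fun i => ((full.get i).1, x i) := ⟨_, rfl⟩
  have hLlen : L.length = full.length := by rw [hL, List.length_ofFn]
  have hfl : full.length = r + B.length := by
    rw [hfull, List.length_append, List.length_replicate]
  have hgetB : ∀ (i : ℕ) (hi : i < full.length) (hri : r ≤ i), full[i] = B[i - r]'(by omega) := by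
    intro i hi hri
    subst hfull
    rw [List.getElem_append_right (by rw [List.length_replicate]; exact hri)]
    simp only [List.length_replicate]
  have hgetP : ∀ (i : ℕ) (hi : i < full.length), i < r → (full[i]).1 = Tg.tF := by
    intro i hi hri
    subst hfull
    rw [List.getElem_append_left (by rw [List.length_replicate]; exact hri),
      List.getElem_replicate]
  have hsplit : L = L.take r ++ evb (Sum.elim id X) B := by
    conv_lhs => rw [← List.take_append_drop r L]
    congr 1
    apply List.ext_getElem
    · rw [List.length_drop, hLlen, hfl]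
      unfold evb
      rw [List.length_map]
      omega
    · intro i h1 h2
      have hi2 : i < B.length := by
        unfold evb at h2
        rwa [List.length_map] at h2
      rw [List.getElem_drop]
      subst hL
      rw [List.getElem_ofFn]
      have e2 : (evb (Sum.elim id X) B)[i]'h2 = ((B[i]'hi2).1, Sum.elim id X (B[i]'hi2).2) := by
        simp [evb]
      have e1 : full[r + i]'(by omega) = B[i] := by
        rw [hgetB (r + i) (by omega) (by omega)]
        congr 1
        omega
      rw [e2, hx _ (by simp only; omega)]
      simp only [List.get_eq_getElem]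
      rw [e1]
  rw [← hL, hsplit]
  refine mach3_pad _ _ (fun a ha => ?_)
  obtain ⟨i, hi, rfl⟩ := List.mem_iff_getElem.mp ha
  rw [List.getElem_take]
  have hir : i < r := by
    rw [List.length_take] at hi
    omega
  subst hL
  rw [List.getElem_ofFn]
  simp only [List.get_eq_getElem]
  rw [hgetP i _ hir]
  simp

/-- **The word problem of the deterministic automaton.** -/
theorem det_hard (h M U n : ℕ) (hU : M * 2 ^ (9 * h + 4) ≤ U) (hn : U ≤ n) :
    ∃ (t : Fin n → Tg) (D : Set (Fin n → Bool)),
      (∀ x ∈ D, ∀ y ∈ D, x ≤ y → mach3.Accepts (List.ofFn fun i => (t i, x i)) →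
        mach3.Accepts (List.ofFn fun i => (t i, y i))) ∧
      ∀ (T : Type u) (𝒯 : Tests T (Fin n)), RankTests 𝒯 → Prog.Mono 𝒯 → ∀ k, k + U ≤ n →
        ∀ p : Prog T, p.cost ≤ M → p.load 𝒯 < 2 ^ (h ^ 2 + h) →
        ∃ x ∈ D, k ≤ (Finset.univ.filter (fun i => x i = true)).card ∧
          (Finset.univ.filter (fun i => x i = true)).card ≤ k + U ∧
          ¬ (p.Acc 𝒯 x ↔ mach3.Accepts (List.ofFn fun i => (t i, x i))) := by
  classical
  obtain ⟨m, hm⟩ : ∃ m, m = 2 ^ (2 * h) := ⟨_, rfl⟩
  have hm1 : 1 ≤ m := by rw [hm]; exact Nat.one_le_two_pow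
  obtain ⟨b, hb⟩ : ∃ b, b = (tenc m h).length := ⟨_, rfl⟩
  have hb1 : b ≤ 2 ^ (9 * h + 4) := by
    have h1 := length_tenc hm1 h
    rw [← hb] at h1
    refine h1.trans (le_of_eq ?_)
    rw [hm, ← pow_mul, ← pow_add]
    congr 1
    ring
  have hMb : M * b ≤ U := (Nat.mul_le_mul_left M hb1).trans hU
  obtain ⟨r, hr⟩ : ∃ r, n = r + M * b := ⟨n - M * b, by omega⟩
  obtain ⟨full, hfull⟩ : ∃ full : List (Tg × (Bool ⊕ (Fin M × Vr m))),
    full = List.replicate r (Tg.tF, Sum.inl false) ++ tblks m M h := ⟨_, rfl⟩
  have hlen : full.length = n := by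
    rw [hfull, List.length_append, List.length_replicate, length_tblks, ← hb, hr]
  subst hlen
  have hgood : ∀ (X : Fin M × Vr m → Bool) (x : Fin full.length → Bool),
      (∀ i : Fin full.length, r ≤ i.val → x i = Sum.elim id X (full.get i).2) →
      (mach3.Accepts (List.ofFn (fun i : Fin full.length => ((full.get i).1, x i))) ↔
      ∃ j, DGood h (fun v => X (j, v))) := by
    intro X x hx
    rw [accepts_full hfull X x hx, evb_tblks, mach3_accepts]
    simp [List.mem_map]
  refine ⟨fun i => (full.get i).1,
    {x | ∃ X : Fin M × Vr m → Bool, (∀ j, (fun v => X (j, v)) ∈ KK hm1 h) ∧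
      ∀ i : Fin full.length, r ≤ i.val → x i = Sum.elim id X (full.get i).2}, ?_,
    fun T 𝒯 h𝒯 hmono k hk p hcost hload => ?_⟩
  · rintro x ⟨X, hX, hx⟩ y ⟨Y, hY, hy⟩ hxy hacc
    rw [hgood X x hx] at hacc
    rw [hgood Y y hy]
    obtain ⟨j, hj⟩ := hacc
    refine ⟨j, (dgood_iff hm1 (hY j)).2 (good_mono ?_ ((dgood_iff hm1 (hX j)).1 hj))⟩
    intro g hg hgX
    have hmem : (g.1, Sum.map id (Prod.mk j) g.2) ∈ tblks m M h := by
      unfold tblks
      rw [List.mem_flatMap]
      exact ⟨j, List.mem_finRange j, List.mem_map.2 ⟨g, hg, rfl⟩⟩
    obtain ⟨i, hi, hi2⟩ := List.mem_iff_getElem.1 hmem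
    have hlt : r + i < full.length := by
      rw [hfull, List.length_append, List.length_replicate]
      omega
    have hget : full[r + i]'hlt = (g.1, Sum.map id (Prod.mk j) g.2) := by
      have : ∀ (l : List (Tg × (Bool ⊕ (Fin M × Vr m)))) (hl : l = full) (h3 : r + i < l.length),
          l[r + i] = full[r + i]'hlt := by
        intro l hl h3
        subst hl
        rfl
      rw [← this _ hfull.symm (by
          rw [List.length_append, List.length_replicate]
          omega),
        List.getElem_append_right (by rw [List.length_replicate]; omega)]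
      rw [← hi2]
      congr 1
      rw [List.length_replicate]
      omega
    have h1 := hxy ⟨r + i, hlt⟩
    rw [hx _ (by simp only; omega), hy _ (by simp only; omega)] at h1
    simp only [List.get_eq_getElem, hget, elim_map] at h1
    rw [hgX] at h1
    exact top_le_iff.1 h1
  · by_contra hcon
    push Not at hcon
    obtain ⟨emb, hemb⟩ : ∃ emb : (Fin M → Vr m → Bool) → Fin full.length → Bool,
      emb = fun Y i => if i.val < r then decide (i.val < k) else
        Sum.elim id (fun z : Fin M × Vr m => Y z.1 z.2) (full.get i).2 := ⟨_, rfl⟩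
    have hkr : k ≤ r := by omega
    have hones : ∀ Y, k ≤ (Finset.univ.filter (fun i => emb Y i = true)).card ∧
        (Finset.univ.filter (fun i => emb Y i = true)).card ≤ k + U := by
      intro Y
      constructor
      · have h1 : (Finset.univ : Finset (Fin k)).card ≤
            (Finset.univ.filter (fun i => emb Y i = true)).card :=
          Finset.card_le_card_of_injOn (fun i : Fin k => (⟨i.val, by omega⟩ : Fin full.length))
            (fun i _ => by
              simp only [Finset.coe_filter, Finset.mem_univ, true_and, Set.mem_ofPred_eq]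
              rw [hemb]
              simp only
              rw [if_pos (by omega)]
              simp)
            (fun i _ j _ hij => by
              simp only [Fin.mk.injEq] at hij
              exact Fin.ext hij)
        rwa [Finset.card_univ, Fintype.card_fin] at h1
      · have h1 : (Finset.univ.filter (fun i => emb Y i = true)).card ≤
            (Finset.range k ∪ Finset.Ico r full.length).card :=
          Finset.card_le_card_of_injOn (fun i : Fin full.length => i.val)
            (fun i hi => by
              simp only [Finset.coe_filter, Finset.mem_univ, true_and, Set.mem_ofPred_eq] at hi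
              rw [hemb] at hi
              simp only at hi
              rw [Finset.mem_coe, Finset.mem_union, Finset.mem_range, Finset.mem_Ico]
              by_contra hc
              push Not at hc
              have h2 := i.isLt
              have h3 : i.val < r := by
                by_contra h4
                exact absurd (hc.2 (by omega)) (by omega)
              rw [if_pos h3] at hi
              simp only [decide_eq_true_eq] at hi
              omega)
            (Fin.val_injective.injOn)
        have h2 := Finset.card_union_le (Finset.range k) (Finset.Ico r full.length)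
        rw [Finset.card_range, Nat.card_Ico] at h2
        omega
    have hmem : ∀ Y : Fin M → Vr m → Bool, (∀ J, Y J ∈ KK hm1 h) →
        (p.Acc 𝒯 (emb Y) ↔ ∃ j, DGood h (Y j)) := by
      intro Y hY
      have hx : ∀ i : Fin full.length, r ≤ i.val →
          emb Y i = Sum.elim id (fun z : Fin M × Vr m => Y z.1 z.2) (full.get i).2 := by
        intro i hi
        rw [hemb]
        simp only
        rw [if_neg (by omega)]
      rw [hcon _ ⟨fun z => Y z.1 z.2, hY, hx⟩ (hones Y).1 (hones Y).2, hgood _ _ hx]
    have hK : ∀ z : Vr m → Bool, (z = (fun _ => false) ∨ ∃ y, z = tβ m h y) → z ∈ KK hm1 h := by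
      rintro z (rfl | ⟨y, rfl⟩)
      · exact Or.inl rfl
      · exact Or.inr (Or.inl ⟨_, rfl⟩)
    have hcard : p.load 𝒯 * (Fintype.card (Nd h)).choose h < m ^ (h + 1) := by
      have h1 : (Fintype.card (Nd h)).choose h ≤ (2 ^ (h + 1)) ^ h :=
        (Nat.choose_le_pow _ h).trans (Nat.pow_le_pow_left (card_nd_le h) h)
      calc p.load 𝒯 * (Fintype.card (Nd h)).choose h ≤ p.load 𝒯 * (2 ^ (h + 1)) ^ h :=
            Nat.mul_le_mul_left _ h1
        _ < 2 ^ (h ^ 2 + h) * (2 ^ (h + 1)) ^ h :=
            Nat.mul_lt_mul_of_pos_right hload (by positivity)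
        _ = m ^ (h + 1) := by
            rw [hm, ← pow_mul, ← pow_mul, ← pow_add]
            congr 1
            ring
    have hlt := copies_dom h𝒯 hmono notMem_kids hm1 (TConf h) (tconf_good h) (le_card_nd h)
      (M := M) (tα hm1 h) (tβ m h) (oneRule_tree hm1) emb (by
        intro i
        by_cases hi : i.val < r
        · right
          refine ⟨decide (i.val < k), fun Y => ?_⟩
          rw [hemb]
          simp only
          rw [if_pos hi]
        · rcases hi2 : (full.get i).2 with c | ⟨J, z⟩
          · right
            refine ⟨c, fun Y => ?_⟩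
            rw [hemb]
            simp only
            rw [if_neg hi, hi2]
            rfl
          · left
            refine ⟨J, z, fun Y => ?_⟩
            rw [hemb]
            simp only
            rw [if_neg hi, hi2]
            rfl) p (by
        intro Y hY
        rw [hmem Y (fun J => hK _ (hY J))]
        rintro ⟨j, hj⟩
        have h1 := dgood_good hj
        rcases hY j with h2 | ⟨y, h2⟩
        · rw [h2] at h1
          exact not_good_zero h h1
        · rw [h2] at h1
          exact not_good_xneg h _ h1) (by
        intro Y hY J x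
        rw [hmem _ (fun J' => by
          by_cases hJ : J' = J
          · subst hJ
            rw [Function.update_self]
            exact Or.inr (Or.inr ⟨x, rfl⟩)
          · rw [Function.update_of_ne hJ]
            exact hK _ (hY J'))]
        refine ⟨J, ?_⟩
        rw [Function.update_self]
        exact dgood_xpos hm1 h x) hcard
    omega

end

end Pool.Agent.W953.SR
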