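import Mathlib
import Pool.Agent.W953.SR.Cmp

/-!
# The model of comparator circuits
-/

set_option autoImplicit false

namespace Pool.Agent.W953.SR

open Finset Pool.Agent.W953.SP Pool.Agent.H540R2 Pool.Agent.W953.NW Pool.Agent.W953.NB

section

variable {W W' : Type} [DecidableEq W] [DecidableEq W']

lemma crun_append (L M : List (W × W)) : ∀ s : W → Bool,
    crun (L ++ M) s = crun M (crun L s) := by
  induction L with
  | nil => exact fun s => rfl
  | cons g L ih => exact fun s => ih _

/-- a block of wires -/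
lemma crun_block (φ : W' → W) (hφ : Function.Injective φ) (L : List (W' × W')) :
    ∀ s : W → Bool, (∀ k, crun (L.map (Prod.map φ φ)) s (φ k) = crun L (fun j => s (φ j)) k) ∧
      ∀ k, (∀ j, φ j ≠ k) → crun (L.map (Prod.map φ φ)) s k = s k := by
  induction L with
  | nil => exact fun s => ⟨fun k => rfl, fun k _ => rfl⟩
  | cons g L ih =>
    intro s
    have e1 : (fun j => cstep (Prod.map φ φ g) s (φ j)) = cstep g (fun j => s (φ j)) := by
      funext j
      unfold cstep
      simp only [Prod.map_fst, Prod.map_snd, hφ.eq_iff]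
    refine ⟨fun k => ?_, fun k hk => ?_⟩
    · show crun (L.map (Prod.map φ φ)) (cstep (Prod.map φ φ g) s) (φ k) =
        crun L (cstep g (fun j => s (φ j))) k
      rw [(ih _).1, e1]
    · show crun (L.map (Prod.map φ φ)) (cstep (Prod.map φ φ g) s) k = s k
      rw [(ih _).2 k hk]
      unfold cstep
      simp only [Prod.map_fst, Prod.map_snd]
      rw [if_neg (fun h => hk _ h.symm), if_neg (fun h => hk _ h.symm)]

variable {V : Type} [DecidableEq V] {B : V → Type} [∀ v, DecidableEq (B v)]

/-- several blocks -/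
lemma crun_blocks (L : ∀ v, List (B v × B v)) (K : List V) : K.Nodup → ∀ s : (Σ v, B v) → Bool,
    (∀ v ∈ K, ∀ k, crun (K.flatMap (fun v => (L v).map (Prod.map (Sigma.mk v) (Sigma.mk v)))) s
      ⟨v, k⟩ = crun (L v) (fun j => s ⟨v, j⟩) k) ∧
    ∀ v ∉ K, ∀ k, crun (K.flatMap (fun v => (L v).map (Prod.map (Sigma.mk v) (Sigma.mk v)))) s
      ⟨v, k⟩ = s ⟨v, k⟩ := by
  induction K with
  | nil => exact fun _ s => ⟨fun v hv => absurd hv (by simp), fun v _ k => rfl⟩
  | cons u K ih =>
    intro hnd s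
    rw [List.nodup_cons] at hnd
    have hb := crun_block (Sigma.mk u : B u → Σ v, B v) sigma_mk_injective (L u) s
    have hi := ih hnd.2 (crun ((L u).map (Prod.map (Sigma.mk u) (Sigma.mk u))) s)
    have hne : ∀ v, v ≠ u → ∀ k : B v, ∀ j : B u, (⟨u, j⟩ : Σ v, B v) ≠ ⟨v, k⟩ := by
      intro v hv k j h
      exact hv (congrArg Sigma.fst h).symm
    refine ⟨fun v hv k => ?_, fun v hv k => ?_⟩
    · rw [List.flatMap_cons, crun_append]
      rcases List.mem_cons.mp hv with rfl | hv
      · rw [hi.2 v hnd.1, hb.1]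
      · have hvu : v ≠ u := fun h => hnd.1 (h ▸ hv)
        rw [hi.1 v hv]
        congr 1
        funext j
        exact hb.2 _ (hne v hvu j)
    · rw [List.flatMap_cons, crun_append]
      rw [List.mem_cons, not_or] at hv
      rw [hi.2 v hv.2]
      exact hb.2 _ (hne v hv.1 k)

end

/-! ### composition -/

namespace Cmp

variable {I J : Type}

/-- a constant -/
def cst (J : Type) (b : Bool) : Cmp J where
  W := Unit
  init := fun _ => Sum.inr b
  gates := []
  out := ()

/-- a variable -/
def var (j : J) : Cmp J where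
  W := Unit
  init := fun _ => Sum.inl j
  gates := []
  out := ()

/-- the circuit at a wire -/
def sub (F : Cmp I) (G : I → Cmp J) (v : F.W) : Cmp J :=
  Sum.elim G (cst J) (F.init v)

/-- the composition -/
noncomputable def comp (F : Cmp I) (G : I → Cmp J) : Cmp J where
  W := Σ v : F.W, (F.sub G v).W
  fin := inferInstance
  dec := inferInstance
  init := fun p => (F.sub G p.1).init p.2
  gates := ((univ : Finset F.W).toList.flatMap
      (fun v => ((F.sub G v).gates).map (Prod.map (Sigma.mk v) (Sigma.mk v)))) ++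
    F.gates.map (Prod.map (fun v => ⟨v, (F.sub G v).out⟩) (fun v => ⟨v, (F.sub G v).out⟩))
  out := ⟨F.out, (F.sub G F.out).out⟩

lemma cst_val (b : Bool) (x : J → Bool) : (cst J b).val x = b := rfl

lemma var_val (j : J) (x : J → Bool) : (var j).val x = x j := rfl

theorem comp_val (F : Cmp I) (G : I → Cmp J) (x : J → Bool) :
    (F.comp G).val x = F.val (fun i => (G i).val x) := by
  classical
  obtain ⟨ψ, hψ⟩ : ∃ ψ : F.W → (Σ v : F.W, (F.sub G v).W), ψ = fun v => ⟨v, (F.sub G v).out⟩ :=
    ⟨_, rfl⟩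
  have hinj : Function.Injective ψ := by
    intro u v h
    rw [hψ] at h
    exact congrArg Sigma.fst h
  obtain ⟨s₀, hs₀⟩ : ∃ s₀ : (Σ v : F.W, (F.sub G v).W) → Bool,
    s₀ = fun p => Sum.elim x id ((F.sub G p.1).init p.2) := ⟨_, rfl⟩
  obtain ⟨s, hs⟩ : ∃ s : (Σ v : F.W, (F.sub G v).W) → Bool,
    s = crun ((univ : Finset F.W).toList.flatMap
      (fun v => ((F.sub G v).gates).map (Prod.map (Sigma.mk v) (Sigma.mk v)))) s₀ := ⟨_, rfl⟩
  have h1 : (F.comp G).val x = crun (F.gates.map (Prod.map ψ ψ)) s (ψ F.out) := by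
    have e : (F.comp G).val x = crun (((univ : Finset F.W).toList.flatMap
      (fun v => ((F.sub G v).gates).map (Prod.map (Sigma.mk v) (Sigma.mk v)))) ++
      F.gates.map (Prod.map ψ ψ)) s₀ (ψ F.out) := by rw [hψ, hs₀]; rfl
    rw [e, crun_append, ← hs]
  rw [h1, (crun_block ψ hinj F.gates s).1]
  unfold val
  congr 1
  funext v
  have h2 := (crun_blocks (fun v => (F.sub G v).gates) (univ : Finset F.W).toList
    (Finset.nodup_toList _) s₀).1 v (Finset.mem_toList.mpr (mem_univ v))
    (F.sub G v).out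
  rw [← hs] at h2
  have h3 : s (ψ v) = (F.sub G v).val x := by
    rw [hψ]
    rw [h2, hs₀]
    rfl
  rw [h3]
  unfold start sub
  cases F.init v with
  | inl i => rfl
  | inr b => rfl

theorem comp_wires (F : Cmp I) (G : I → Cmp J) :
    (F.comp G).wires = ∑ v, (F.sub G v).wires := by
  unfold wires
  show Fintype.card (Σ v : F.W, (F.sub G v).W) = _
  rw [Fintype.card_sigma]

theorem comp_gates (F : Cmp I) (G : I → Cmp J) :
    (F.comp G).gates.length = ∑ v, (F.sub G v).gates.length + F.gates.length := by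
  show ((((univ : Finset F.W).toList.flatMap
      (fun v => ((F.sub G v).gates).map (Prod.map (Sigma.mk v) (Sigma.mk v)))) ++
    F.gates.map (Prod.map (fun v => ⟨v, (F.sub G v).out⟩) (fun v => ⟨v, (F.sub G v).out⟩)) :
      List ((Σ v : F.W, (F.sub G v).W) × (Σ v : F.W, (F.sub G v).W)))).length = _
  rw [List.length_append, List.length_map, List.length_flatMap]
  congr 1
  simp only [List.length_map]
  rw [Finset.sum_map_toList]

/-- one comparator -/
def two (b : Bool) : Cmp (Fin 2) where
  W := Fin 2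
  init := fun k => Sum.inl k
  gates := [(0, 1)]
  out := if b then 0 else 1

lemma two_true (x : Fin 2 → Bool) : (two true).val x = (x 0 && x 1) := rfl

lemma two_false (x : Fin 2 → Bool) : (two false).val x = (x 0 || x 1) := rfl

/-- the complement over the negated variables -/
def neg (C : Cmp I) (ν : I → J) : Cmp J where
  W := C.W
  init := fun k => Sum.map ν not (C.init k)
  gates := C.gates.map Prod.swap
  out := C.out

lemma neg_val (C : Cmp I) (ν : I → J) (x : I → Bool) (y : J → Bool) (h : ∀ i, y (ν i) = !(x i)) :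
    (C.neg ν).val y = !(C.val x) := by
  have key : ∀ (L : List (C.W × C.W)) (s s' : C.W → Bool), (∀ k, s' k = !(s k)) →
      ∀ k, crun (L.map Prod.swap) s' k = !(crun L s k) := by
    intro L
    induction L with
    | nil => exact fun s s' hs => hs
    | cons g L ih =>
      intro s s' hs
      refine ih _ _ (fun k => ?_)
      unfold cstep
      obtain ⟨a, b⟩ := g
      simp only [Prod.swap_prod_mk]
      by_cases hka : k = a
      · by_cases hkb : k = b
        · subst hka
          subst hkb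
          simp [hs]
        · rw [if_neg hkb, if_pos hka, if_pos hka, hs, hs]
          cases s a <;> cases s b <;> rfl
      · by_cases hkb : k = b
        · rw [if_pos hkb, if_neg hka, if_pos hkb, hs, hs]
          cases s a <;> cases s b <;> rfl
        · rw [if_neg hkb, if_neg hka, if_neg hka, if_neg hkb, hs]
  refine key C.gates _ _ (fun k => ?_) C.out
  unfold start
  show Sum.elim y id (Sum.map ν not (C.init k)) = !(Sum.elim x id (C.init k))
  cases C.init k with
  | inl i => exact h i
  | inr b => rfl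

end Cmp

/-! ### the model -/

/-- complexity by comparator circuits without negations; constants are free -/
def cmpK {n : ℕ} (f : BF n) (s : ℕ) : Prop :=
  (∃ C : Cmp (Fin n), C.size ≤ s ∧ ∀ x, C.val x = f x) ∨ ∃ b : Bool, ∀ x, f x = b

lemma size_le {I : Type} {C : Cmp I} {s : ℕ} :
    C.size ≤ s ↔ C.wires ≤ s ∧ C.gates.length + 1 ≤ s := max_le_iff

lemma sub_le {I J : Type} {F : Cmp I} {G : I → Cmp J} {t : ℕ} (ht : 1 ≤ t)
    (hG : ∀ i, (G i).size ≤ t) (v : F.W) : (F.sub G v).size ≤ t := by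
  unfold Cmp.sub
  cases F.init v with
  | inl i => exact hG i
  | inr b => exact ht

lemma wires_pos {I : Type} (C : Cmp I) : 1 ≤ C.wires := Fintype.card_pos_iff.mpr ⟨C.out⟩

lemma comp_size {I J : Type} (F : Cmp I) (G : I → Cmp J) {s t : ℕ} (hF : F.size ≤ s)
    (ht : 1 ≤ t) (hG : ∀ i, (G i).size ≤ t) : (F.comp G).size ≤ s * t := by
  rw [size_le] at hF ⊢
  have h1 : ∑ v, (F.sub G v).wires ≤ F.wires * t := by
    show _ ≤ Fintype.card F.W * t
    rw [← Finset.card_univ, ← smul_eq_mul]
    exact Finset.sum_le_card_nsmul _ _ _ (fun v _ => (size_le.mp (sub_le ht hG v)).1)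
  have h2 : ∑ v, (F.sub G v).gates.length ≤ F.wires * (t - 1) := by
    show _ ≤ Fintype.card F.W * (t - 1)
    rw [← Finset.card_univ, ← smul_eq_mul]
    refine Finset.sum_le_card_nsmul _ _ _ (fun v _ => ?_)
    have := (size_le.mp (sub_le ht hG v)).2
    omega
  rw [Cmp.comp_wires, Cmp.comp_gates]
  obtain ⟨t', rfl⟩ : ∃ t', t = t' + 1 := ⟨t - 1, by omega⟩
  rw [Nat.add_sub_cancel] at h2
  have h3 := Nat.mul_le_mul_right (t' + 1) hF.1
  have h4 := Nat.mul_le_mul_right t' hF.1
  have h5 : s * (t' + 1) = s * t' + s := by ring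
  refine ⟨h1.trans h3, ?_⟩
  rw [h5]
  omega

lemma two_size {J : Type} (b : Bool) (G : Fin 2 → Cmp J) {s t : ℕ} (h0 : (G 0).size ≤ s)
    (h1 : (G 1).size ≤ t) : ((Cmp.two b).comp G).size ≤ s + t := by
  rw [size_le] at h0 h1 ⊢
  rw [Cmp.comp_wires, Cmp.comp_gates]
  have e1 : ∑ v, ((Cmp.two b).sub G v).wires = (G 0).wires + (G 1).wires := by
    have : (univ : Finset (Cmp.two b).W) = (univ : Finset (Fin 2)) := rfl
    exact Fin.sum_univ_two (fun v : Fin 2 => ((Cmp.two b).sub G v).wires)
  have e2 : ∑ v, ((Cmp.two b).sub G v).gates.length = (G 0).gates.length + (G 1).gates.length :=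
    Fin.sum_univ_two (fun v : Fin 2 => ((Cmp.two b).sub G v).gates.length)
  have e3 : (Cmp.two b).gates.length = 1 := rfl
  rw [e1, e2, e3]
  omega

lemma one_le_size {I : Type} (C : Cmp I) : 1 ≤ C.size :=
  (wires_pos C).trans (le_max_left _ _)

lemma cmpK.circ {n : ℕ} {f : BF n} {s : ℕ} (h : cmpK f s) (hs : 1 ≤ s) :
    ∃ C : Cmp (Fin n), C.size ≤ s ∧ ∀ x, C.val x = f x := by
  rcases h with h | ⟨b, hb⟩
  · exact h
  · exact ⟨Cmp.cst (Fin n) b, hs, fun x => (hb x).symm⟩

/-- the model of comparator circuits -/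
def cmp : Model where
  K := cmpK
  mono := by
    rintro n f s t (⟨C, h1, h2⟩ | h) hst
    · exact Or.inl ⟨C, h1.trans hst, h2⟩
    · exact Or.inr h
  var := fun i => Or.inl ⟨Cmp.var i, le_rfl, fun x => Cmp.var_val i x⟩
  const := fun {n} b => Or.inr ⟨b, fun _ => rfl⟩
  and := by
    rintro n f g s t (⟨C, c1, c2⟩ | ⟨b, hb⟩) (⟨D, d1, d2⟩ | ⟨b', hb'⟩)
    · let G : Fin 2 → Cmp (Fin n) := ![C, D]
      refine Or.inl ⟨(Cmp.two true).comp G, two_size true G c1 d1, fun x => ?_⟩
      rw [Cmp.comp_val, Cmp.two_true]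
      show (C.val x && D.val x) = _
      rw [c2, d2]
    · cases b' with
      | true => exact Or.inl ⟨C, by omega, fun x => by simp only [c2, hb', Bool.and_true]⟩
      | false => exact Or.inr ⟨false, fun x => by simp only [hb', Bool.and_false]⟩
    · cases b with
      | true => exact Or.inl ⟨D, by omega, fun x => by simp only [d2, hb, Bool.true_and]⟩
      | false => exact Or.inr ⟨false, fun x => by simp only [hb, Bool.false_and]⟩
    · exact Or.inr ⟨b && b', fun x => by simp only [hb, hb']⟩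
  or := by
    rintro n f g s t (⟨C, c1, c2⟩ | ⟨b, hb⟩) (⟨D, d1, d2⟩ | ⟨b', hb'⟩)
    · let G : Fin 2 → Cmp (Fin n) := ![C, D]
      refine Or.inl ⟨(Cmp.two false).comp G, two_size false G c1 d1, fun x => ?_⟩
      rw [Cmp.comp_val, Cmp.two_false]
      show (C.val x || D.val x) = _
      rw [c2, d2]
    · cases b' with
      | true => exact Or.inr ⟨true, fun x => by simp only [hb', Bool.or_true]⟩
      | false => exact Or.inl ⟨C, by omega, fun x => by simp only [c2, hb', Bool.or_false]⟩
    · cases b with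
      | true => exact Or.inr ⟨true, fun x => by simp only [hb, Bool.true_or]⟩
      | false => exact Or.inl ⟨D, by omega, fun x => by simp only [d2, hb, Bool.false_or]⟩
    · exact Or.inr ⟨b || b', fun x => by simp only [hb, hb']⟩
  comp := by
    rintro m n F s (⟨C, c1, c2⟩ | ⟨b, hb⟩) g t hg
    · by_cases ht : 1 ≤ t
      · choose G g1 g2 using fun i => (hg i).circ ht
        refine Or.inl ⟨C.comp G, comp_size C G c1 ht g1, fun x => ?_⟩
        rw [Cmp.comp_val, c2]
        congr 1
        funext i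
        exact g2 i x
      · have h : ∀ i, ∃ b : Bool, ∀ x, g i x = b := by
          intro i
          rcases hg i with ⟨D, d1, -⟩ | h
          · have := one_le_size D
            omega
          · exact h
        choose b hb using h
        refine Or.inr ⟨F b, fun x => ?_⟩
        have e : (fun i => g i x) = b := funext fun i => hb i x
        show F (fun i => g i x) = F b
        rw [e]
    · exact Or.inr ⟨b, fun x => hb _⟩

/-- complements -/
theorem cmp_compl : cmp.Compl 1 := by
  intro n f s h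
  rcases h with ⟨C, c1, c2⟩ | ⟨b, hb⟩
  · refine ⟨fun y => (C.neg (Fin.natAdd n)).val y, Or.inl ⟨C.neg (Fin.natAdd n), ?_,
      fun _ => rfl⟩, fun x => ?_⟩
    · rw [pow_one]
      rw [size_le] at c1 ⊢
      have e : (C.neg (Fin.natAdd n : Fin n → Fin (n + n))).gates.length = C.gates.length :=
        List.length_map _
      rw [e]
      have e2 : (C.neg (Fin.natAdd n : Fin n → Fin (n + n))).wires = C.wires := rfl
      rw [e2]
      omega
    · show (C.neg (Fin.natAdd n)).val (lits x) = !(f x)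
      rw [← c2]
      refine C.neg_val _ x (lits x) (fun i => ?_)
      simp only [lits, Fin.append_right]
  · exact ⟨fun _ => !b, Or.inr ⟨!b, fun _ => rfl⟩, fun x => by simp only [hb]⟩

/-- monotone functions -/
lemma cmpK_incr {n : ℕ} {f : BF n} {s : ℕ} (h : cmpK f s) (x y : Fin n → Bool)
    (hxy : ∀ i, x i ≤ y i) : f x ≤ f y := by
  rcases h with ⟨C, -, c2⟩ | ⟨b, hb⟩
  · rw [Bool.le_iff_imp, ← c2, ← c2]
    refine C.val_mono (fun i hi => ?_)
    have := hxy i
    rw [hi] at this
    exact top_le_iff.mp this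
  · rw [hb, hb]

/-- the model of comparator circuits as the stronger model -/
def cmpB : Big where
  G f s := cmp.L f s
  M f s := cmp.K f s
  toG h := Model.L.of_K h
  incr h := cmpK_incr h
  dual := fun {n f s} ⟨Q, hQ, hQf⟩ => ⟨Q, cmp.mono hQ (by omega), hQf⟩

/-! ### trees -/

universe u

/-- trees of tests, with a factor of two in the size -/
lemma tree_of_TA' {n : ℕ} {T : Type u} {𝓜 : Model} {𝒯 : Tests T (Fin n)}
    (h𝓜 : ∀ (f : BF n) (s : ℕ), 𝓜.K f s →
      ∃ P : T, 𝒯.size P ≤ s + 1 ∧ ∀ x, 𝒯.acc P x ↔ f x = true) {t : ℕ} {f : BF n}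
    {s : ℕ} (h : 𝓜.TA t f s) : ∃ p : DTree T, p.depth ≤ t ∧ p.size 𝒯 ≤ 2 * s ∧
      ∀ x, p.Acc 𝒯 x ↔ f x = true := by
  induction h with
  | out t hf hs =>
    obtain ⟨P, h1, h2⟩ := h𝓜 _ _ hf
    refine ⟨.out P, Nat.zero_le _, ?_, h2⟩
    show 𝒯.size P + 1 ≤ _
    omega
  | @ask t q a b f s₀ s₁ s₂ s hq ha hb hs hf iha ihb =>
    obtain ⟨P, h1, h2⟩ := h𝓜 _ _ hq
    obtain ⟨p, a1, a2, a3⟩ := iha
    obtain ⟨p', b1, b2, b3⟩ := ihb
    refine ⟨.ask P p p', ?_, ?_, fun x => ?_⟩
    · show max p.depth p'.depth + 1 ≤ t + 1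
      omega
    · show 𝒯.size P + p.size 𝒯 + p'.size 𝒯 + 1 ≤ 2 * s
      omega
    · show ((𝒯.acc P x ∧ p.Acc 𝒯 x) ∨ (¬ 𝒯.acc P x ∧ p'.Acc 𝒯 x)) ↔ f x = true
      rw [hf, h2, a3, b3]
      cases hqx : q x <;> simp

end Pool.Agent.W953.SR
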