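import Mathlib
import Pool.Agent.W953.SR.Gen2
import Pool.Agent.W953.SR.Cmp
import Pool.Agent.W953.SP.Net

/-!
# Reachability in layered digraphs is hard for computations in rounds
-/

set_option autoImplicit false

namespace Pool.Agent.W953.SR

open Finset Pool.Agent.H560R2 Pool.Agent.W953.PT Pool.Agent.W953.SP Pool.Agent.H540R2
  Pool.Agent.H540R2.Circuit Pool.Agent.W953.NW

universe u

/-- A directed graph with `n` edges and two distinguished vertices. -/
structure Host (n : ℕ) where
  V : Type
  src : V
  snk : V
  tail : Fin n → V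
  head : Fin n → V

namespace Host

variable {n : ℕ}

/-- there is a path from `src` to `snk` that uses only edges `e` with `x e = true` -/
def Conn (D : Host n) (x : Fin n → Bool) : Prop :=
  Relation.ReflTransGen (fun a b => ∃ e, x e = true ∧ D.tail e = a ∧ D.head e = b) D.src D.snk

/-- every edge goes from a level to the next one -/
def Layered (D : Host n) : Prop := ∃ lvl : D.V → ℕ, ∀ e, lvl (D.head e) = lvl (D.tail e) + 1

end Host

/-- the vertices -/
inductive Vx (M n q : ℕ) : Type
  | src | snk | dead
  | mid (J : Fin M) (v : Fin n) (c : Fin q)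

section

variable {M n q N : ℕ}

lemma mem_ppre {v : Fin n} (h : 0 < v.val) :
    (⟨v.val - 1, lt_of_le_of_lt (Nat.sub_le _ _) v.isLt⟩ : Fin n) ∈ ppre v := by
  unfold ppre
  rw [Finset.mem_filter]
  exact ⟨Finset.mem_univ _, by simp only; omega⟩

/-- the tail of an edge -/
def etail (t : Fin n) : Fin M × PVar (ppre (n := n)) q → Vx M n q
  | (J, Sum.inl ⟨v, ρ⟩) => if h : 0 < v.val then
      .mid J ⟨v.val - 1, lt_of_le_of_lt (Nat.sub_le _ _) v.isLt⟩
        (ρ ⟨_, Finset.mem_insert_of_mem (mem_ppre h)⟩) else .src
  | (J, Sum.inr c) => .mid J t c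

/-- the head of an edge -/
def ehead : Fin M × PVar (ppre (n := n)) q → Vx M n q
  | (J, Sum.inl ⟨v, ρ⟩) => .mid J v (ρ ⟨v, Finset.mem_insert_self _ _⟩)
  | (_, Sum.inr _) => .snk

open Classical in
/-- the digraph -/
noncomputable def pathHost (t : Fin n) (g : Fin M × PVar (ppre (n := n)) q → Fin N) : Host N where
  V := Vx M n q
  src := .src
  snk := .snk
  tail := fun e => if h : ∃ a, g a = e then etail t h.choose else .snk
  head := fun e => if h : ∃ a, g a = e then ehead h.choose else .dead

lemma tail_apply (t : Fin n) {g : Fin M × PVar (ppre (n := n)) q → Fin N}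
    (hg : Function.Injective g) (a : Fin M × PVar (ppre (n := n)) q) :
    (pathHost t g).tail (g a) = etail t a := by
  have h : ∃ b, g b = g a := ⟨a, rfl⟩
  show (if h : ∃ b, g b = g a then etail t h.choose else .snk) = _
  rw [dif_pos h, hg h.choose_spec]

lemma head_apply (t : Fin n) {g : Fin M × PVar (ppre (n := n)) q → Fin N}
    (hg : Function.Injective g) (a : Fin M × PVar (ppre (n := n)) q) :
    (pathHost t g).head (g a) = ehead a := by
  have h : ∃ b, g b = g a := ⟨a, rfl⟩
  show (if h : ∃ b, g b = g a then ehead h.choose else .dead) = _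
  rw [dif_pos h, hg h.choose_spec]

/-- the levels -/
def vlvl : Vx M n q → ℕ
  | .src => 0
  | .mid _ v _ => v.val + 1
  | .snk => n + 1
  | .dead => n + 2

lemma elvl (t : Fin n) (ht : t.val + 1 = n) (a : Fin M × PVar (ppre (n := n)) q) :
    vlvl (ehead a) = vlvl (etail t a) + 1 := by
  rcases a with ⟨J, ⟨v, ρ⟩ | c⟩
  · by_cases h : 0 < v.val
    · simp only [ehead, etail, dif_pos h, vlvl]
      omega
    · simp only [ehead, etail, dif_neg h, vlvl]
      omega
  · simp only [ehead, etail, vlvl]
    omega

lemma pathHost_layered (t : Fin n) (ht : t.val + 1 = n)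
    (g : Fin M × PVar (ppre (n := n)) q → Fin N) : (pathHost t g).Layered := by
  refine ⟨vlvl, fun e => ?_⟩
  by_cases h : ∃ a, g a = e
  · show vlvl (if h : ∃ a, g a = e then ehead h.choose else .dead) =
      vlvl (if h : ∃ a, g a = e then etail t h.choose else .snk) + 1
    rw [dif_pos h, dif_pos h]
    exact elvl t ht _
  · show vlvl (if h : ∃ a, g a = e then ehead h.choose else .dead) =
      vlvl (if h : ∃ a, g a = e then etail t h.choose else .snk) + 1
    rw [dif_neg h, dif_neg h]
    rfl

/-- Reachability is the lifted pebbling function. -/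
theorem conn_iff (t : Fin n) {g : Fin M × PVar (ppre (n := n)) q → Fin N}
    (hg : Function.Injective g) (x : Fin N → Bool) :
    (pathHost t g).Conn x ↔ ∃ J, pebF (ppre (n := n)) t q (fun r => x (g (J, r))) := by
  constructor
  · intro h
    let Inv : Vx M n q → Prop := fun b => match b with
      | .src => True
      | .dead => True
      | .mid J v c => Der (ppre (n := n)) q (fun r => x (g (J, r))) v c
      | .snk => ∃ J, pebF (ppre (n := n)) t q (fun r => x (g (J, r)))
    have key : ∀ b, Relation.ReflTransGen
        (fun a b => ∃ e, x e = true ∧ (pathHost t g).tail e = a ∧ (pathHost t g).head e = b)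
        Vx.src b → Inv b := by
      intro b hb
      induction hb with
      | refl => trivial
      | tail _ hstep ih =>
        obtain ⟨e, hxe, rfl, rfl⟩ := hstep
        by_cases he : ∃ a, g a = e
        · obtain ⟨⟨J, ⟨v, ρ⟩ | c⟩, rfl⟩ := he
          · rw [head_apply t hg]
            rw [tail_apply t hg] at ih
            show Der (ppre (n := n)) q (fun r => x (g (J, r))) v
              (ρ ⟨v, Finset.mem_insert_self _ _⟩)
            refine Der.mk v ρ hxe (fun u hu => ?_)
            have hu' : u.val + 1 = v.val := (Finset.mem_filter.mp hu).2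
            have hv : 0 < v.val := by omega
            have hue : u = ⟨v.val - 1, lt_of_le_of_lt (Nat.sub_le _ _) v.isLt⟩ :=
              Fin.ext (by simp only; omega)
            subst hue
            simp only [etail, dif_pos hv, Inv] at ih
            exact ih
          · rw [head_apply t hg]
            rw [tail_apply t hg] at ih
            exact ⟨J, c, hxe, ih⟩
        · have : (pathHost t g).head e = Vx.dead := dif_neg he
          rw [this]
          trivial
    exact key _ h
  · rintro ⟨J, c, hc, hD⟩
    have key : ∀ v c, Der (ppre (n := n)) q (fun r => x (g (J, r))) v c →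
        Relation.ReflTransGen
          (fun a b => ∃ e, x e = true ∧ (pathHost t g).tail e = a ∧ (pathHost t g).head e = b)
          Vx.src (Vx.mid J v c) := by
      intro v c h
      induction h with
      | mk v ρ hX hP ih =>
        by_cases hv : 0 < v.val
        · refine Relation.ReflTransGen.tail (ih _ (mem_ppre hv)) ⟨g (J, Sum.inl ⟨v, ρ⟩), hX, ?_, ?_⟩
          · rw [tail_apply t hg]
            exact dif_pos hv
          · rw [head_apply t hg]
            rfl
        · refine Relation.ReflTransGen.single ⟨g (J, Sum.inl ⟨v, ρ⟩), hX, ?_, ?_⟩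
          · rw [tail_apply t hg]
            exact dif_neg hv
          · rw [head_apply t hg]
            rfl
    refine Relation.ReflTransGen.tail (key t c hD) ⟨g (J, Sum.inr c), hc, ?_, ?_⟩
    · rw [tail_apply t hg]
      rfl
    · rw [head_apply t hg]
      rfl

lemma card_ppvar (hq : 0 < q) : Fintype.card (PVar (ppre (n := n)) q) ≤ n * q ^ 2 + q := by
  classical
  rw [Fintype.card_sum, Fintype.card_sigma, Fintype.card_fin]
  have h1 : ∀ v : Fin n, Fintype.card ({i // i ∈ insert v (ppre v)} → Fin q) ≤ q ^ 2 := by
    intro v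
    rw [Fintype.card_fun, Fintype.card_fin, Fintype.card_coe]
    apply Nat.pow_le_pow_right hq
    have h2 := Finset.card_insert_le v (ppre v)
    have h3 : (ppre v).card ≤ 1 := by
      rw [Finset.card_le_one]
      intro a ha b hb
      have ha' : a.val + 1 = v.val := (Finset.mem_filter.mp ha).2
      have hb' : b.val + 1 = v.val := (Finset.mem_filter.mp hb).2
      exact Fin.ext (by omega)
    omega
  have h2 : ∑ v : Fin n, Fintype.card ({i // i ∈ insert v (ppre v)} → Fin q) ≤ n * q ^ 2 := by
    refine (Finset.sum_le_sum (fun v _ => h1 v)).trans ?_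
    rw [Finset.sum_const, Finset.card_univ, smul_eq_mul, Fintype.card_fin]
  omega

end

/-- The configurations of the path. -/
lemma conf_good {d n : ℕ} (hn : n = 2 ^ d) {t : Fin n} (ht : t.val + 1 = n) :
    Good (ppre (n := n)) t d (Conf d n) where
  nil := conf_empty n
  card := fun _ hS => hS.1
  ins := fun _ _ hS hP hv hc => conf_insert hS hP hv hc
  ers := fun _ _ hS hP hv => conf_erase hS hP hv
  top := fun _ hS => conf_last hn ht hS

/-- **Reachability on slices.** -/
theorem reach_hard (d M U r : ℕ) (hU : M * (2 ^ (5 * d) + 2 ^ (2 * d)) ≤ U) :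
    ∃ D : Host (U + r), D.Layered ∧
      ∀ (T : Type u) (𝒯 : Tests T (Fin (U + r))), RankTests 𝒯 → Prog.Mono 𝒯 →
      ∀ k ≤ r, ∀ p : Prog T, p.cost ≤ M → p.load 𝒯 < 2 ^ (d ^ 2 + 2 * d) →
        ∃ x, k ≤ wt x ∧ wt x ≤ k + U ∧ ¬ (p.Acc 𝒯 x ↔ D.Conn x) := by
  classical
  obtain ⟨n, hn⟩ : ∃ n, n = 2 ^ d := ⟨_, rfl⟩
  obtain ⟨q, hq⟩ : ∃ q, q = 2 ^ (2 * d) := ⟨_, rfl⟩
  have hn1 : 1 ≤ n := by rw [hn]; exact Nat.one_le_two_pow
  have hq1 : 1 ≤ q := by rw [hq]; exact Nat.one_le_two_pow
  obtain ⟨t, ht⟩ : ∃ t : Fin n, t.val + 1 = n := ⟨⟨n - 1, by omega⟩, by simp only; omega⟩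
  have hcard : Fintype.card (Fin M × PVar (ppre (n := n)) q) ≤ Fintype.card (Fin U) := by
    rw [Fintype.card_prod, Fintype.card_fin, Fintype.card_fin]
    refine le_trans (Nat.mul_le_mul_left M ((card_ppvar hq1).trans (le_of_eq ?_))) hU
    rw [hn, hq, ← pow_mul, ← pow_add]
    congr 2
    ring
  obtain ⟨e⟩ := Function.Embedding.nonempty_of_card_le hcard
  have hg : Function.Injective (fun a => Fin.castAdd r (e a)) :=
    (Fin.castAdd_injective U r).comp e.injective
  refine ⟨pathHost t (fun a => Fin.castAdd r (e a)), pathHost_layered t ht _,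
    fun T 𝒯 h𝒯 hmono k hk p hcost hload => ?_⟩
  by_contra hcon
  push Not at hcon
  have hlvl : ∀ v : Fin n, ∀ u ∈ ppre v, u.val < v.val := by
    intro v u hu
    have := (Finset.mem_filter.mp hu).2
    omega
  have hnd : d + 1 ≤ Fintype.card (Fin n) := by
    rw [Fintype.card_fin, hn]
    exact Nat.lt_two_pow_self
  have hload' : p.load 𝒯 * (Fintype.card (Fin n)).choose d < q ^ (d + 1) := by
    rw [Fintype.card_fin]
    calc p.load 𝒯 * n.choose d ≤ p.load 𝒯 * n ^ d :=
          Nat.mul_le_mul_left _ (Nat.choose_le_pow n d)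
      _ < 2 ^ (d ^ 2 + 2 * d) * n ^ d := Nat.mul_lt_mul_of_pos_right hload (by positivity)
      _ = q ^ (d + 1) := by
          rw [hn, hq, ← pow_mul, ← pow_mul, ← pow_add]
          congr 1
          ring
  have hlt := copies_lt2 h𝒯 hmono (fun v : Fin n => v.val) hlvl hq1 (Conf d n)
    (conf_good hn ht) hnd (M := M)
    (fun Y => PT.ext (r := r) k (fill e Y)) (by
      intro i
      refine Fin.addCases (fun j => ?_) (fun j => ?_) i
      · simp only [PT.ext, Fin.append_left]
        exact fill_cases e j
      · right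
        exact ⟨decide (j.val < k), fun Y => by simp only [PT.ext, Fin.append_right]⟩) p (by
      intro Y
      have hw := wt_ext (r := r) hk (fill e Y)
      have hy := wt_le (fill e Y)
      rw [hcon (PT.ext (r := r) k (fill e Y)) (by omega) (by omega), conn_iff t hg]
      refine exists_congr fun J => ?_
      have : (fun r' => PT.ext (r := r) k (fill e Y) (Fin.castAdd r (e (J, r')))) = Y J := by
        funext r'
        simp only [PT.ext, Fin.append_left]
        exact fill_apply e e.injective Y (J, r')
      rw [this]) hload'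
  omega

end Pool.Agent.W953.SR
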