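import Mathlib
import Pool.Agent.W953.SR.PathHard
import Pool.Agent.H589R2.MNL.LinEnc

/-!
# A linear language is hard for computations in rounds
-/

set_option autoImplicit false

namespace Pool.Agent.W953.SR

open Finset Pool.Agent.H560R2 Pool.Agent.W953.SP

open Pool.Agent.H589R2.MNL (Lt Lv slin slins Con lmach lR lR_append lmach_run run_slins LNE
  lrun_sk ev_slins length_slins length_slin PDA)

universe u

section

variable {m K : ℕ}

/-- the labels `b` of `v` and `a` of its predecessor -/
def rho {n : ℕ} (v : Fin n) (a b : Fin m) : {i // i ∈ insert v (ppre v)} → Fin m :=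
  fun i => if i.1 = v then b else a

lemma rho_self {n : ℕ} (v : Fin n) (a b : Fin m) :
    rho v a b ⟨v, Finset.mem_insert_self _ _⟩ = b := if_pos rfl

lemma rho_pre {n : ℕ} (v : Fin n) (a b : Fin m) {u : Fin n} (hu : u ∈ ppre v) :
    rho v a b ⟨u, Finset.mem_insert_of_mem hu⟩ = a := by
  have h : u ≠ v := by
    rintro rfl
    have := (Finset.mem_filter.mp hu).2
    omega
  exact if_neg h

lemma rho_eq {n : ℕ} (v : Fin n) (ρ : {i // i ∈ insert v (ppre v)} → Fin m) (a b : Fin m)
    (ha : ∀ u (hu : u ∈ ppre v), a = ρ ⟨u, Finset.mem_insert_of_mem hu⟩)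
    (hb : b = ρ ⟨v, Finset.mem_insert_self _ _⟩) : rho v a b = ρ := by
  funext ⟨i, hi⟩
  rcases Finset.mem_insert.mp hi with h | h
  · subst h
    rw [rho_self, hb]
  · rw [rho_pre v a b h, ha i h]

/-- the layered graph of an input -/
def lay (hm : 0 < m) (K : ℕ) (Z : PVar (ppre (n := 2 * K)) m → Bool) : Lv m → Bool := fun z =>
  if h : z.1 < 2 * K then
    (if 0 < z.1 ∨ z.2.1 = ⟨0, hm⟩ then Z (Sum.inl ⟨⟨z.1, h⟩, rho ⟨z.1, h⟩ z.2.1 z.2.2⟩) else false)
  else if z.1 = 2 * K ∧ z.2.2 = ⟨0, hm⟩ then Z (Sum.inr z.2.1) else false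

lemma lay_cases (hm : 0 < m) (K : ℕ) (z : Lv m) :
    (∃ r, ∀ Z, lay hm K Z z = Z r) ∨ ∀ Z, lay hm K Z z = false := by
  by_cases h : z.1 < 2 * K
  · by_cases h2 : 0 < z.1 ∨ z.2.1 = ⟨0, hm⟩
    · exact Or.inl ⟨Sum.inl ⟨⟨z.1, h⟩, rho ⟨z.1, h⟩ z.2.1 z.2.2⟩, fun Z => by
        unfold lay; rw [dif_pos h, if_pos h2]⟩
    · exact Or.inr fun Z => by unfold lay; rw [dif_pos h, if_neg h2]
  · by_cases h2 : z.1 = 2 * K ∧ z.2.2 = ⟨0, hm⟩
    · exact Or.inl ⟨Sum.inr z.2.1, fun Z => by unfold lay; rw [dif_neg h, if_pos h2]⟩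
    · exact Or.inr fun Z => by unfold lay; rw [dif_neg h, if_neg h2]

/-- Reachability in the layered graph is the lifted pebbling function. -/
theorem con_lay (hm : 0 < m) {t : Fin (2 * K)} (ht : t.val + 1 = 2 * K)
    (Z : PVar (ppre (n := 2 * K)) m → Bool) :
    Con hm K (lay hm K Z) ↔ pebF (ppre (n := 2 * K)) t m Z := by
  have hK : 0 < 2 * K := by omega
  constructor
  · rintro ⟨a, ha0, haK, ha⟩
    have key : ∀ v (h : v < 2 * K), Der (ppre (n := 2 * K)) m Z ⟨v, h⟩ (a (v + 1)) := by
      intro v
      induction v with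
      | zero =>
        intro h
        have h1 := ha 0 (by omega)
        unfold lay at h1
        rw [dif_pos h, if_pos (Or.inr ha0)] at h1
        have h2 := Der.mk _ _ h1 (fun u hu => by
          have := (Finset.mem_filter.mp hu).2
          simp only at this
          omega)
        rw [rho_self] at h2
        exact h2
      | succ v ih =>
        intro h
        have h1 := ha (v + 1) (by omega)
        unfold lay at h1
        rw [dif_pos h, if_pos (Or.inl (Nat.succ_pos v))] at h1
        have h2 := Der.mk _ _ h1 (fun u hu => by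
          have h3 := (Finset.mem_filter.mp hu).2
          simp only at h3
          have h4 : u = ⟨v, by omega⟩ := Fin.ext (by simp only; omega)
          rw [rho_pre _ _ _ hu, h4]
          exact ih (by omega))
        rw [rho_self] at h2
        exact h2
    have h1 := ha (2 * K) le_rfl
    unfold lay at h1
    rw [dif_neg (lt_irrefl _), if_pos ⟨rfl, haK⟩] at h1
    refine ⟨a (2 * K), h1, ?_⟩
    have h2 := key t.val t.isLt
    rw [ht] at h2
    exact h2
  · rintro ⟨c, hc, hD⟩
    have key : ∀ v c, Der (ppre (n := 2 * K)) m Z v c → ∃ a : ℕ → Fin m, a 0 = ⟨0, hm⟩ ∧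
        a (v.val + 1) = c ∧ ∀ i ≤ v.val, lay hm K Z (i, a i, a (i + 1)) = true := by
      intro v c h
      induction h with
      | mk v ρ hX hP ih =>
        by_cases hv : 0 < v.val
        · obtain ⟨a, h0, h1, h2⟩ := ih _ (mem_ppre hv)
          have e1 : v.val - 1 + 1 = v.val := by omega
          simp only at h1 h2
          rw [e1] at h1
          refine ⟨Function.update a (v.val + 1) (ρ ⟨v, Finset.mem_insert_self _ _⟩), ?_, ?_, ?_⟩
          · rw [Function.update_of_ne (by omega)]
            exact h0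
          · rw [Function.update_self]
          · intro i hi
            by_cases hiv : i = v.val
            · subst hiv
              rw [Function.update_self, Function.update_of_ne (by omega)]
              unfold lay
              rw [dif_pos v.isLt, if_pos (Or.inl hv)]
              rw [rho_eq v ρ (a v.val) _ (fun u hu => ?_) rfl]
              · exact hX
              · have h3 := (Finset.mem_filter.mp hu).2
                have h4 : u = ⟨v.val - 1, lt_of_le_of_lt (Nat.sub_le _ _) v.isLt⟩ :=
                  Fin.ext (by simp only; omega)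
                subst h4
                exact h1
            · rw [Function.update_of_ne (by omega), Function.update_of_ne (by omega)]
              exact h2 i (by omega)
        · refine ⟨fun i => if i = 0 then ⟨0, hm⟩ else ρ ⟨v, Finset.mem_insert_self _ _⟩,
            if_pos rfl, if_neg (by omega), ?_⟩
          intro i hi
          have hi0 : i = v.val := by omega
          subst hi0
          have hv0 : v.val = 0 := by omega
          unfold lay
          rw [dif_pos v.isLt, if_pos (Or.inr (if_pos hv0))]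
          rw [rho_eq v ρ _ _ (fun u hu => ?_) (if_neg (by omega))]
          · exact hX
          · have h3 := (Finset.mem_filter.mp hu).2
            omega
    obtain ⟨a, h0, h1, h2⟩ := key t c hD
    rw [ht] at h1
    refine ⟨Function.update a (2 * K + 1) ⟨0, hm⟩, ?_, ?_, ?_⟩
    · rw [Function.update_of_ne (by omega)]
      exact h0
    · rw [Function.update_self]
    · intro i hi
      by_cases hiK : i = 2 * K
      · subst hiK
        rw [Function.update_self, Function.update_of_ne (by omega)]
        unfold lay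
        rw [dif_neg (lt_irrefl _), if_pos ⟨rfl, rfl⟩]
        simp only
        rw [h1]
        exact hc
      · rw [Function.update_of_ne (by omega), Function.update_of_ne (by omega)]
        exact h2 i (by omega)

/-- the padding letter -/
def padL : Lt → Bool := fun τ => decide (τ = Lt.bl)

/-- **The word problem of the automaton.** -/
theorem lin_hard (d M n : ℕ) (hd : 1 ≤ d) (hn : M * 2 ^ (9 * d + 4) ≤ n) (T : Type u)
    (𝒯 : Tests T (Fin n × Lt)) (h𝒯 : RankTests 𝒯) (hmono : Prog.Mono 𝒯) (p : Prog T)
    (hcost : p.cost ≤ M) (hload : p.load 𝒯 < 2 ^ (d ^ 2 + 2 * d)) :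
    ∃ W : Fin n → Lt → Bool, ¬ (p.Acc 𝒯 (fun y => W y.1 y.2) ↔ lmach.Accepts (List.ofFn W)) := by
  classical
  obtain ⟨K, hK⟩ : ∃ K, K = 2 ^ (d - 1) := ⟨_, rfl⟩
  obtain ⟨m, hm⟩ : ∃ m, m = 2 ^ (2 * d) := ⟨_, rfl⟩
  have h2K : 2 * K = 2 ^ d := by
    rw [hK, ← pow_succ']
    congr 1
    omega
  have hm1 : 0 < m := by rw [hm]; positivity
  obtain ⟨b, hb⟩ : ∃ b, b = (slin m K).length := ⟨_, rfl⟩
  have hb1 : b ≤ 2 ^ (9 * d + 4) := by
    have h1 := length_slin (m := m) hm1 K
    rw [← hb] at h1
    refine h1.trans ?_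
    have h2 : 2 * K + 2 ≤ 2 ^ (d + 1) := by
      rw [h2K, pow_succ]
      have : 2 ^ 1 ≤ 2 ^ d := Nat.pow_le_pow_right (by norm_num) hd
      omega
    calc (2 * K + 2) * (8 * m ^ 4) ≤ 2 ^ (d + 1) * (2 ^ 3 * (2 ^ (2 * d)) ^ 4) := by
          refine Nat.mul_le_mul h2 ?_
          rw [hm]
          norm_num
      _ = 2 ^ (9 * d + 4) := by
          rw [← pow_mul, ← pow_add, ← pow_add]
          congr 1
          ring
  have hMb : M * b ≤ n := (Nat.mul_le_mul_left M hb1).trans hn
  obtain ⟨r, hr⟩ : ∃ r, n = r + M * b := ⟨n - M * b, by omega⟩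
  obtain ⟨full, hfull⟩ : ∃ full : List (Lt → Bool ⊕ (Fin M × Lv m)),
    full = List.replicate r (fun τ => Sum.inl (padL τ)) ++ slins m M K := ⟨_, rfl⟩
  have hlen : full.length = n := by
    rw [hfull, List.length_append, List.length_replicate, length_slins, ← hb, hr]
  clear hr
  subst hlen
  obtain ⟨t, ht⟩ : ∃ t : Fin (2 * K), t.val + 1 = 2 * K := by
    have : 0 < 2 * K := by rw [h2K]; positivity
    exact ⟨⟨2 * K - 1, by omega⟩, by simp only; omega⟩
  by_contra hcon
  push Not at hcon
  -- the embedding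
  obtain ⟨lift, hlift⟩ : ∃ lift : (Fin M → PVar (ppre (n := 2 * K)) m → Bool) →
    (Fin M × Lv m → Bool), lift = fun Y z => lay hm1 K (Y z.1) z.2 := ⟨_, rfl⟩
  have hword : ∀ X : Fin M × Lv m → Bool,
      List.ofFn (fun i : Fin full.length => fun o => Sum.elim id X (full.get i o)) =
        List.replicate r padL ++ ((List.finRange M).map (fun j => fun v => X (j, v))).flatMap
          (fun x => (slin m K).map (Pool.Agent.H589R2.MNL.lvl x)) := by
    intro X
    rw [← ev_slins]
    have h1 : List.ofFn (fun i : Fin full.length => fun o => Sum.elim id X (full.get i o)) =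
        full.map (fun g o => Sum.elim id X (g o)) :=
      (List.map_ofFn (f := full.get) (g := fun g o => Sum.elim id X (g o))).symm.trans
        (by rw [List.ofFn_get])
    rw [h1, hfull, List.map_append, List.map_replicate]
    rfl
  have hgood : ∀ X : Fin M × Lv m → Bool,
      lmach.Accepts (List.ofFn (fun i : Fin full.length =>
        fun o => Sum.elim id X (full.get i o))) ↔ ∃ j, Con hm1 K (fun v => X (j, v)) := by
    intro X
    rw [hword]
    have hpad : LNE (List.replicate r padL) := by
      intro a ha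
      rw [List.eq_of_mem_replicate ha]
      exact ⟨⟨Lt.bl, by simp [padL]⟩, by simp [padL]⟩
    have h1 : lmach.Accepts (List.replicate r padL ++
        ((List.finRange M).map (fun j => fun v => X (j, v))).flatMap
          (fun x => (slin m K).map (Pool.Agent.H589R2.MNL.lvl x))) ↔
        ∃ s, lR (((List.finRange M).map (fun j => fun v => X (j, v))).flatMap
          (fun x => (slin m K).map (Pool.Agent.H589R2.MNL.lvl x)))
          (Pool.Agent.H589R2.MNL.Ls.sk, [Pool.Agent.H589R2.MNL.Sk.B])
          (Pool.Agent.H589R2.MNL.Ls.ff, s) := by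
      constructor
      · rintro ⟨q, hq, s, hrun⟩
        have hq' : q = Pool.Agent.H589R2.MNL.Ls.ff := hq
        subst hq'
        refine ⟨s, ?_⟩
        obtain ⟨e, h2, h3⟩ := (lR_append _ _ _ _).1 ((lmach_run _ _ _).1 hrun)
        have h4 : e = (Pool.Agent.H589R2.MNL.Ls.sk, [Pool.Agent.H589R2.MNL.Sk.B]) :=
          (lrun_sk _ hpad _ _ _).1 h2
        rw [h4] at h3
        exact h3
      · rintro ⟨s, hrun⟩
        refine ⟨Pool.Agent.H589R2.MNL.Ls.ff, rfl, s, (lmach_run _ _ _).2 ?_⟩
        exact (lR_append _ _ _ _).2 ⟨_, (lrun_sk _ hpad _ _ _).2 rfl, hrun⟩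
    rw [h1, run_slins hm1]
    simp [List.mem_map]
  have hlvl : ∀ v : Fin (2 * K), ∀ u ∈ ppre v, u.val < v.val := by
    intro v u hu
    have := (Finset.mem_filter.mp hu).2
    omega
  have hnd : d + 1 ≤ Fintype.card (Fin (2 * K)) := by
    rw [Fintype.card_fin, h2K]
    exact Nat.lt_two_pow_self
  have hload' : p.load 𝒯 * (Fintype.card (Fin (2 * K))).choose d < m ^ (d + 1) := by
    rw [Fintype.card_fin]
    calc p.load 𝒯 * (2 * K).choose d ≤ p.load 𝒯 * (2 * K) ^ d :=
          Nat.mul_le_mul_left _ (Nat.choose_le_pow _ d)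
      _ < 2 ^ (d ^ 2 + 2 * d) * (2 * K) ^ d :=
          Nat.mul_lt_mul_of_pos_right hload (by rw [h2K]; positivity)
      _ = m ^ (d + 1) := by
          rw [h2K, hm, ← pow_mul, ← pow_mul, ← pow_add]
          congr 1
          ring
  have hlt := copies_lt2 h𝒯 hmono (fun v : Fin (2 * K) => v.val) hlvl hm1 (Conf d (2 * K))
    (conf_good h2K ht) hnd (M := M)
    (fun Y => fun y => Sum.elim id (lift Y) (full.get y.1 y.2)) (by
      intro y
      rcases hy : full.get y.1 y.2 with c | ⟨J, z⟩
      · right
        exact ⟨c, fun Y => by simp only [Sum.elim_inl, id]⟩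
      · rcases lay_cases hm1 K z with ⟨s, hs⟩ | hs
        · left
          exact ⟨J, s, fun Y => by simp only [Sum.elim_inr, hlift, hs]⟩
        · right
          exact ⟨false, fun Y => by simp only [Sum.elim_inr, hlift, hs]⟩) p (by
      intro Y
      have h1 := hcon (fun i o => Sum.elim id (lift Y) (full.get i o))
      rw [h1, hgood]
      refine exists_congr fun J => ?_
      have e1 : (fun v => lift Y (J, v)) = lay hm1 K (Y J) := by
        rw [hlift]
      rw [e1, con_lay hm1 ht]) hload'
  omega

end

end Pool.Agent.W953.SR
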